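import Mathlib

/-! Polynomials `D Y^e + ∑ F_j Y^j` over a polynomial ring, and the monic polynomial with the roots
`D y` (helper70). -/

set_option autoImplicit false

open Polynomial Finset

namespace Pool.Agent.R70.HC

section ring

variable {R R' : Type} [CommRing R] [CommRing R']

/-- the polynomial `D Y^e + ∑_{j<e} F_j Y^j` -/
noncomputable def Pi' (e : ℕ) (D : R[X]) (F : ℕ → R[X]) : R[X][X] :=
  C D * X ^ e + ∑ j ∈ range e, C (F j) * X ^ j

/-- the polynomial `Z^e + ∑_{j<e} F_j D^(e-1-j) Z^j` -/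
noncomputable def Hp (e : ℕ) (D : R[X]) (F : ℕ → R[X]) : R[X][X] :=
  X ^ e + ∑ j ∈ range e, C (F j * D ^ (e - 1 - j)) * X ^ j

theorem Hp_monic (e : ℕ) (D : R[X]) (F : ℕ → R[X]) : (Hp e D F).Monic := by
  rw [Hp]
  rcases Nat.eq_zero_or_pos e with rfl | he
  · simp
  · refine monic_X_pow_add ?_
    refine mem_degreeLT.1 (Submodule.sum_mem _ fun j hj => mem_degreeLT.2 ?_)
    refine (degree_C_mul_X_pow_le _ _).trans_lt ?_
    exact_mod_cast Finset.mem_range.1 hj

theorem Hp_map (f : R →+* R') (e : ℕ) (D : R[X]) (F : ℕ → R[X]) :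
    (Hp e D F).map (mapRingHom f) = Hp e (D.map f) (fun j => (F j).map f) := by
  simp [Hp, Polynomial.map_sum, Polynomial.map_mul, Polynomial.map_pow]

/-- a root of the first polynomial gives a root of the second one -/
theorem Hp_root {A : Type} [CommRing A] (i : R[X] →+* A) (e : ℕ) (he : 0 < e) (D : R[X])
    (F : ℕ → R[X]) (r : A) (hr : (Pi' e D F).eval₂ i r = 0) :
    (Hp e D F).eval₂ i (i D * r) = 0 := by
  have h1 : (Pi' e D F).eval₂ i r = i D * r ^ e + ∑ j ∈ range e, i (F j) * r ^ j := by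
    simp [Pi', eval₂_add, eval₂_finsetSum, eval₂_mul, eval₂_pow]
  have h2 : (Hp e D F).eval₂ i (i D * r) =
      (i D * r) ^ e + ∑ j ∈ range e, i (F j) * i D ^ (e - 1 - j) * (i D * r) ^ j := by
    simp [Hp, eval₂_add, eval₂_finsetSum, eval₂_mul, eval₂_pow]
  rw [h2]
  have h3 : (i D * r) ^ e + ∑ j ∈ range e, i (F j) * i D ^ (e - 1 - j) * (i D * r) ^ j =
      i D ^ (e - 1) * (i D * r ^ e + ∑ j ∈ range e, i (F j) * r ^ j) := by
    rw [mul_add, Finset.mul_sum]
    congr 1
    · obtain ⟨m, rfl⟩ : ∃ m, e = m + 1 := ⟨e - 1, by omega⟩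
      rw [Nat.add_sub_cancel]
      ring
    · refine Finset.sum_congr rfl fun j hj => ?_
      have hj' := Finset.mem_range.1 hj
      have h4 : i D ^ (e - 1) = i D ^ (e - 1 - j) * i D ^ j := by
        rw [← pow_add]
        congr 1
        omega
      rw [h4]
      ring
  rw [h3, ← h1, hr, mul_zero]

end ring

/-- a polynomial root has bounded degree -/
theorem natDegree_root {κ : Type} [Field κ] (e : ℕ) (D : κ[X]) (F : ℕ → κ[X]) (δ : ℕ)
    (hδ : ∀ j < e, (F j * D ^ (e - 1 - j)).natDegree ≤ δ) (Z : κ[X])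
    (hZ : (Hp e D F).eval Z = 0) : Z.natDegree ≤ δ := by
  by_contra hcon
  push Not at hcon
  have hZ0 : Z ≠ 0 := by
    rintro rfl
    simp at hcon
  rcases Nat.eq_zero_or_pos e with rfl | he
  · simp [Hp] at hZ
  have h1 : Z ^ e = - ∑ j ∈ range e, (F j * D ^ (e - 1 - j)) * Z ^ j := by
    have : (Hp e D F).eval Z = Z ^ e + ∑ j ∈ range e, (F j * D ^ (e - 1 - j)) * Z ^ j := by
      simp [Hp, eval_add, eval_finsetSum, eval_mul, eval_pow]
    rw [this] at hZ
    exact eq_neg_of_add_eq_zero_left hZ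
  have h2 : (Z ^ e).natDegree = e * Z.natDegree := natDegree_pow _ _
  have h3 : (- ∑ j ∈ range e, (F j * D ^ (e - 1 - j)) * Z ^ j).natDegree ≤
      δ + (e - 1) * Z.natDegree := by
    rw [natDegree_neg]
    refine natDegree_sum_le_of_forall_le _ _ fun j hj => ?_
    have hj' := Finset.mem_range.1 hj
    refine natDegree_mul_le.trans ?_
    rw [natDegree_pow]
    refine Nat.add_le_add (hδ j hj') (Nat.mul_le_mul_right _ ?_)
    omega
  rw [← h1, h2] at h3
  obtain ⟨m, rfl⟩ : ∃ m, e = m + 1 := ⟨e - 1, by omega⟩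
  rw [Nat.add_sub_cancel, add_mul, one_mul] at h3
  omega

/-- the general polynomial of degree at most `δ` -/
noncomputable def gen (R : Type) [CommRing R] (δ : ℕ) : (MvPolynomial (Fin (δ + 1)) R)[X] :=
  ∑ i : Fin (δ + 1), C (MvPolynomial.X i) * X ^ (i : ℕ)

/-- the equations for the coefficients of a root -/
noncomputable def Eq' {R : Type} [CommRing R] (e : ℕ) (D : R[X]) (F : ℕ → R[X]) (δ l : ℕ) :
    MvPolynomial (Fin (δ + 1)) R :=
  ((Hp e (D.map (MvPolynomial.C (σ := Fin (δ + 1)))) (fun j => (F j).map MvPolynomial.C)).eval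
    (gen R δ)).coeff l

theorem Eq'_map {R A : Type} [CommRing R] [CommRing A] (f : R →+* A) (e : ℕ) (D : R[X])
    (F : ℕ → R[X]) (δ l : ℕ) (z : Fin (δ + 1) → A) :
    MvPolynomial.eval₂ f z (Eq' e D F δ l) =
      ((Hp e (D.map f) (fun j => (F j).map f)).eval
        (∑ i : Fin (δ + 1), C (z i) * X ^ (i : ℕ))).coeff l := by
  have h1 : MvPolynomial.eval₂ f z (Eq' e D F δ l) =
      (((Hp e (D.map (MvPolynomial.C (σ := Fin (δ + 1)))) (fun j => (F j).map MvPolynomial.C)).eval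
        (gen R δ)).map (MvPolynomial.eval₂Hom f z)).coeff l := by
    rw [coeff_map]
    rfl
  rw [h1]
  congr 1
  have hf : (MvPolynomial.eval₂Hom f z).comp (MvPolynomial.C (σ := Fin (δ + 1))) = f := by
    ext a
    simp
  have h2 : ((Hp e (D.map (MvPolynomial.C (σ := Fin (δ + 1))))
      (fun j => (F j).map MvPolynomial.C)).eval (gen R δ)).map (MvPolynomial.eval₂Hom f z) =
      ((Hp e (D.map (MvPolynomial.C (σ := Fin (δ + 1))))
      (fun j => (F j).map MvPolynomial.C)).map (mapRingHom (MvPolynomial.eval₂Hom f z))).eval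
        ((gen R δ).map (MvPolynomial.eval₂Hom f z)) := by
    have := Polynomial.eval_map_apply (p := Hp e (D.map (MvPolynomial.C (σ := Fin (δ + 1))))
      (fun j => (F j).map MvPolynomial.C)) (mapRingHom (MvPolynomial.eval₂Hom f z)) (gen R δ)
    rw [coe_mapRingHom] at this
    exact this.symm
  rw [h2, Hp_map]
  simp only [Polynomial.map_map, hf]
  congr 1
  simp [gen, Polynomial.map_sum]

/-- a polynomial of degree at most `δ` -/
theorem sum_coeff {A : Type} [CommRing A] (δ : ℕ) (Z : A[X]) (hZ : Z.natDegree ≤ δ) :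
    ∑ i : Fin (δ + 1), C (Z.coeff i) * X ^ (i : ℕ) = Z := by
  conv_rhs => rw [Z.as_sum_range_C_mul_X_pow' (Nat.lt_succ_of_le hZ)]
  rw [Fin.sum_univ_eq_sum_range (fun i => C (Z.coeff i) * X ^ i)]

/-- If the monic polynomial has no root in `Ω[t]`, then the equations generate the unit ideal. -/
theorem certificate {K Ω : Type} [Field K] [Field Ω] [Algebra K Ω] [IsAlgClosed Ω] (e : ℕ)
    (D : K[X]) (F : ℕ → K[X]) (δ : ℕ)
    (h : ∀ Z : Polynomial Ω, (Hp e (D.map (algebraMap K Ω)) (fun j => (F j).map (algebraMap K Ω))).eval Z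
      ≠ 0) :
    ∃ A : ℕ →₀ MvPolynomial (Fin (δ + 1)) K, (A.sum fun l a => a * Eq' e D F δ l) = 1 := by
  have htop : Ideal.span (Set.range fun l => Eq' e D F δ l) = ⊤ := by
    by_contra hne
    obtain ⟨m, hm, hle⟩ := Ideal.exists_le_maximal _ hne
    obtain ⟨z, hz⟩ := MvPolynomial.eq_vanishingIdeal_singleton_of_isMaximal Ω hm
    refine h (∑ i : Fin (δ + 1), C (z i) * X ^ (i : ℕ)) ?_
    ext l
    have h1 : Eq' e D F δ l ∈ m := hle (Ideal.subset_span ⟨l, rfl⟩)
    rw [hz, MvPolynomial.mem_vanishingIdeal_singleton_iff] at h1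
    rw [MvPolynomial.aeval_def, Eq'_map] at h1
    rw [h1, coeff_zero]
  have h1 : (1 : MvPolynomial (Fin (δ + 1)) K) ∈
      Ideal.span (Set.range fun l => Eq' e D F δ l) := by
    rw [htop]
    trivial
  obtain ⟨c, hc⟩ := Finsupp.mem_span_range_iff_exists_finsupp.1 h1
  exact ⟨c, by simpa [smul_eq_mul] using hc⟩

end Pool.Agent.R70.HC
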