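import Mathlib
import Pool.Agent.W560.HP.Stm
import Pool.Agent.R70.HC.Frame

/-! Families of rational curves through the general point and composite places (helper70). -/

set_option autoImplicit false

open Polynomial

namespace Pool.Agent.R70.HC

section

variable {k K : Type} [Field k] [Field K] [Algebra k K]

/-- A rational family of rational curves through the general point of the variety with function
field `K`: `s a` is the restriction of the function `a` to the curve through the general point, as
a function of the parameter `t` with coefficients in `K`; for `t = 0` one gets the general point. -/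
def IsFamily (s : K →ₐ[k] RatFunc K) : Prop :=
  ∀ a : K, RatFunc.eval (RingHom.id K) 0 (s a) = a

/-- the inclusion of `B[X]` in `K(t)` -/
noncomputable def inc (B : Subalgebra k K) : B[X] →+* RatFunc K :=
  (algebraMap K[X] (RatFunc K)).comp (mapRingHom (B.val : B →+* K))

theorem inc_injective (B : Subalgebra k K) : Function.Injective (inc B) := by
  refine (RatFunc.algebraMap_injective K).comp ?_
  rw [coe_mapRingHom]
  exact Polynomial.map_injective _ Subtype.val_injective

noncomputable def evl (B : Subalgebra k K) (φ : B →ₐ[k] k) (α : k) : B[X] →+* k :=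
  (evalRingHom α).comp (mapRingHom (φ : B →+* k))

theorem evl_apply (B : Subalgebra k K) (φ : B →ₐ[k] k) (α : k) (f : B[X]) :
    evl B φ α f = (f.map (φ : B →+* k)).eval α := rfl

theorem inc_apply (B : Subalgebra k K) (f : B[X]) :
    inc B f = algebraMap K[X] (RatFunc K) (f.map (B.val : B →+* K)) := rfl

theorem comp_place (s : K →ₐ[k] RatFunc K) (B : Subalgebra k K) (φ : B →ₐ[k] k) (α : k) :
    ∃ (B' : Subalgebra k K) (φ' : B' →ₐ[k] k), ∀ (b : K) (f g : B[X]), evl B φ α g ≠ 0 →
      s b * inc B g = inc B f → ∃ hb : b ∈ B', φ' ⟨b, hb⟩ * evl B φ α g = evl B φ α f := by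
  let G : Subalgebra k (K × k) :=
    { carrier := {x | ∃ f g : B[X], evl B φ α g ≠ 0 ∧ s x.1 * inc B g = inc B f ∧
        x.2 * evl B φ α g = evl B φ α f}
      mul_mem' := by
        rintro x y ⟨f, g, h1, h2, h3⟩ ⟨f', g', h1', h2', h3'⟩
        refine ⟨f * f', g * g', ?_, ?_, ?_⟩
        · rw [map_mul]
          exact mul_ne_zero h1 h1'
        · rw [Prod.fst_mul, map_mul, map_mul, map_mul, ← h2, ← h2']
          ring
        · rw [Prod.snd_mul, map_mul, map_mul, ← h3, ← h3']
          ring
      add_mem' := by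
        rintro x y ⟨f, g, h1, h2, h3⟩ ⟨f', g', h1', h2', h3'⟩
        refine ⟨f * g' + f' * g, g * g', ?_, ?_, ?_⟩
        · rw [map_mul]
          exact mul_ne_zero h1 h1'
        · rw [Prod.fst_add, map_add, map_add, map_mul, map_mul, map_mul, ← h2, ← h2']
          ring
        · rw [Prod.snd_add, map_add, map_mul, map_mul, map_mul, ← h3, ← h3']
          ring
      algebraMap_mem' := by
        intro c
        refine ⟨C (algebraMap k B c), 1, ?_, ?_, ?_⟩
        · rw [map_one]
          exact one_ne_zero
        · change s (algebraMap k K c) * _ = _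
          rw [AlgHom.commutes, map_one, mul_one, inc_apply, Polynomial.map_C]
          change _ = algebraMap K[X] (RatFunc K) (algebraMap k K[X] c)
          rw [← IsScalarTower.algebraMap_apply]
        · change c * _ = _
          rw [map_one, mul_one, evl_apply, Polynomial.map_C, eval_C]
          exact (φ.commutes c).symm }
  have hG : ∀ x : K × k, x ∈ G ↔ ∃ f g : B[X], evl B φ α g ≠ 0 ∧ s x.1 * inc B g = inc B f ∧
      x.2 * evl B φ α g = evl B φ α f := fun x => Iff.rfl
  let p : G →ₐ[k] K := (AlgHom.fst k K k).comp G.val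
  have hp : Function.Injective p := by
    rw [injective_iff_map_eq_zero]
    rintro ⟨⟨a, b⟩, hx⟩ h0
    change a = 0 at h0
    subst h0
    obtain ⟨f, g, h1, h2, h3⟩ := (hG _).1 hx
    simp only [map_zero, zero_mul] at h2 h3
    have hf : f = 0 := inc_injective B (by rw [← h2, map_zero])
    rw [hf, map_zero] at h3
    have hb : b = 0 := (mul_eq_zero.1 h3).resolve_right h1
    subst hb
    rfl
  let e : G ≃ₐ[k] p.range := AlgEquiv.ofInjective p hp
  refine ⟨p.range, ((AlgHom.snd k K k).comp G.val).comp (e.symm : p.range →ₐ[k] G), ?_⟩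
  intro b f g hg hb
  let x : G := ⟨(b, evl B φ α f / evl B φ α g), (hG _).2 ⟨f, g, hg, hb, div_mul_cancel₀ _ hg⟩⟩
  have hx : p x = b := rfl
  refine ⟨⟨x, hx⟩, ?_⟩
  have h1 : e.symm ⟨b, ⟨x, hx⟩⟩ = x := by
    rw [AlgEquiv.symm_apply_eq]
    apply Subtype.ext
    rfl
  change ((e.symm ⟨b, ⟨x, hx⟩⟩ : G) : K × k).2 * _ = _
  rw [h1]
  exact div_mul_cancel₀ _ hg

theorem fam_eval {s : K →ₐ[k] RatFunc K} (hs : IsFamily s) {a : K} {D F : K[X]}
    (hD : D.eval 0 = 1) (h : s a * algebraMap K[X] (RatFunc K) D = algebraMap K[X] (RatFunc K) F) :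
    F.eval 0 = a := by
  have h1 := hs a
  have h2 : (s a).num * D = F * (s a).denom := by
    apply RatFunc.algebraMap_injective K
    rw [map_mul, map_mul, ← h]
    have h3 := RatFunc.num_div_denom (s a)
    have h4 : algebraMap K[X] (RatFunc K) (s a).denom ≠ 0 :=
      RatFunc.algebraMap_ne_zero (s a).denom_ne_zero
    rw [div_eq_iff h4] at h3
    rw [h3]
    ring
  by_cases ha : a = 0
  · subst ha
    rw [map_zero, zero_mul] at h
    have h3 : F = 0 := RatFunc.algebraMap_injective K (by rw [← h, map_zero])
    rw [h3, eval_zero]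
  · rw [← h1] at ha
    have h3 := RatFunc.eval₂_denom_ne_zero ha
    rw [RatFunc.eval, div_eq_iff h3] at h1
    have h4 := congrArg (Polynomial.eval 0) h2
    rw [eval_mul, eval_mul, hD, mul_one] at h4
    simp only [Polynomial.eval₂_id] at h1 h3
    rw [h1] at h4
    exact (mul_right_cancel₀ h3 h4).symm

theorem common_den {s : K →ₐ[k] RatFunc K} (hs : IsFamily s) (A : Finset K) :
    ∃ D : K[X], D.eval 0 = 1 ∧ ∀ a ∈ A, ∃ F : K[X],
      s a * algebraMap K[X] (RatFunc K) D = algebraMap K[X] (RatFunc K) F := by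
  classical
  induction A using Finset.induction_on with
  | empty => exact ⟨1, eval_one, fun a ha => absurd ha (Finset.notMem_empty a)⟩
  | insert a A _ ih =>
    obtain ⟨D, hD, h⟩ := ih
    by_cases ha0 : a = 0
    · refine ⟨D, hD, fun b hb => ?_⟩
      rcases Finset.mem_insert.1 hb with rfl | hb
      · refine ⟨0, ?_⟩
        rw [ha0, map_zero, zero_mul, map_zero]
      · exact h b hb
    have ha := hs a
    rw [← ha] at ha0
    have h3 := RatFunc.eval₂_denom_ne_zero ha0
    simp only [Polynomial.eval₂_id] at h3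
    refine ⟨D * (C ((s a).denom.eval 0)⁻¹ * (s a).denom), ?_, fun b hb => ?_⟩
    · rw [eval_mul, eval_mul, hD, eval_C, inv_mul_cancel₀ h3, one_mul]
    · rcases Finset.mem_insert.1 hb with rfl | hb
      · refine ⟨D * (C ((s b).denom.eval 0)⁻¹ * (s b).num), ?_⟩
        have h4 := RatFunc.num_div_denom (s b)
        have h5 : algebraMap K[X] (RatFunc K) (s b).denom ≠ 0 :=
          RatFunc.algebraMap_ne_zero (s b).denom_ne_zero
        rw [div_eq_iff h5] at h4
        simp only [map_mul]
        rw [h4]
        ring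
      · obtain ⟨F, hF⟩ := h b hb
        refine ⟨F * (C ((s a).denom.eval 0)⁻¹ * (s a).denom), ?_⟩
        rw [map_mul, ← mul_assoc, hF, ← map_mul]

end

/-- Hilbert irreducibility in one variable, root version. -/
theorem hilb1 {k : Type} [Field k] (hk : W560.HP.HilbNR k) (q : ℕ) (P : Fin q → k[X][X])
    (g : k[X]) (hg : g ≠ 0)
    (h : ∀ (j : Fin q) (r : RatFunc k), (P j).eval₂ (algebraMap k[X] (RatFunc k)) r ≠ 0) :
    ∃ α : k, g.eval α ≠ 0 ∧ ∀ (j : Fin q) (x : k), ((P j).map (evalRingHom α)).eval x ≠ 0 := by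
  let e : k[X] ≃ₐ[k] MvPolynomial (Fin 1) k := (MvPolynomial.uniqueAlgEquiv k (Fin 1)).symm
  let Q := FractionRing (MvPolynomial (Fin 1) k)
  let E : RatFunc k ≃+* Q := IsFractionRing.ringEquivOfRingEquiv (A := k[X])
    (B := MvPolynomial (Fin 1) k) (e : k[X] ≃+* MvPolynomial (Fin 1) k)
  have hE : ∀ p : k[X], E (algebraMap k[X] (RatFunc k) p) =
      algebraMap (MvPolynomial (Fin 1) k) Q (e p) := fun p =>
    IsFractionRing.ringEquivOfRingEquiv_algebraMap _ _
  obtain ⟨a, ha1, ha2⟩ := hk (Fin 1) q (fun j => (P j).map (e : k[X] →+* MvPolynomial (Fin 1) k))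
    (e g) (by simpa using hg) (by
      intro j θ hθ
      refine h j (E.symm θ) ?_
      rw [Polynomial.map_map, Polynomial.eval_map] at hθ
      apply E.injective
      rw [map_zero, ← hθ]
      have h1 := Polynomial.hom_eval₂ (P j) (algebraMap k[X] (RatFunc k)) (E : RatFunc k →+* Q)
        (E.symm θ)
      have h2 : (E : RatFunc k →+* Q).comp (algebraMap k[X] (RatFunc k)) =
          (algebraMap (MvPolynomial (Fin 1) k) Q).comp (e : k[X] →+* MvPolynomial (Fin 1) k) := by
        ext p
        · exact hE _
        · exact hE _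
      rw [h2] at h1
      have h3 : (E : RatFunc k →+* Q) (E.symm θ) = θ := E.apply_symm_apply θ
      rw [h3] at h1
      exact h1)
  have he : (MvPolynomial.eval a).comp (e : k[X] →+* MvPolynomial (Fin 1) k) =
      evalRingHom (a 0) := by
    ext c
    · change MvPolynomial.eval a (e (C c)) = (C c).eval (a 0)
      have : e (C c) = MvPolynomial.C c := e.commutes c
      rw [this, MvPolynomial.eval_C, eval_C]
    · change MvPolynomial.eval a (e X) = (X : k[X]).eval (a 0)
      have : e X = MvPolynomial.X 0 := by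
        change Polynomial.eval₂ MvPolynomial.C (MvPolynomial.X default) X = _
        rw [eval₂_X]
        rfl
      rw [this, MvPolynomial.eval_X, eval_X]
  refine ⟨a 0, ?_, fun j x => ?_⟩
  · have h1 := congrArg (fun f : k[X] →+* k => f g) he
    change MvPolynomial.eval a (e g) = g.eval (a 0) at h1
    rw [← h1]
    exact ha1
  · have h1 := ha2 j x
    rw [Polynomial.map_map, he] at h1
    exact h1

end Pool.Agent.R70.HC
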