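import Mathlib
import Pool.Agent.R70.HC.Place

/-! Moving points along rational curves: avoiding one more cover (helper70). -/

set_option autoImplicit false

open Polynomial

namespace Pool.Agent.R70.HC

section

variable {k K : Type} [Field k] [Field K] [Algebra k K]

/-- at the point `φ` the polynomial `P` is defined and has no root in `k` -/
def Avoids (B : Subalgebra k K) (φ : B →ₐ[k] k) (P : K[X]) : Prop :=
  ∃ P' : B[X], P'.map (B.val : B →+* K) = P ∧ ∀ x : k, (P'.map (φ : B →+* k)).eval x ≠ 0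

/-- there are points, in every open set, at which the polynomials of the list have no root -/
def Av (k : Type) {K : Type} [Field k] [Field K] [Algebra k K] (L : List K[X]) : Prop :=
  ∀ S : Finset K, ∃ (B : Subalgebra k K) (φ : B →ₐ[k] k), (S : Set K) ⊆ B ∧
    ∀ P ∈ L, Avoids B φ P

theorem val_inj (B : Subalgebra k K) : Function.Injective (B.val : B →+* K) :=
  Subtype.val_injective

theorem exists_lift (B : Subalgebra k K) (P : K[X]) (h : (P.coeffs : Set K) ⊆ B) :
    ∃ P' : B[X], P'.map (B.val : B →+* K) = P := by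
  have h1 : P ∈ lifts (B.val : B →+* K) := by
    rw [lifts_iff_coeffs_subset_range]
    intro a ha
    exact ⟨⟨a, h ha⟩, rfl⟩
  exact (mem_lifts P).1 h1

theorem exists_lift_mv (B : Subalgebra k K) {σ : Type} (P : MvPolynomial σ K)
    (h : (P.coeffs : Set K) ⊆ B) :
    ∃ P' : MvPolynomial σ B, MvPolynomial.map (B.val : B →+* K) P' = P := by
  have h1 : P ∈ Set.range (MvPolynomial.map (B.val : B →+* K)) := by
    rw [MvPolynomial.mem_range_map_iff_coeffs_subset]
    intro a ha
    exact ⟨⟨a, h ha⟩, rfl⟩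
  exact h1

theorem map_eval_eq (P : k[X]) (e : ℕ) (hP : P.natDegree ≤ e) (h1 : P.coeff e = 1) (x : k) :
    P.eval x = x ^ e + ∑ j ∈ Finset.range e, P.coeff j * x ^ j := by
  rw [eval_eq_sum_range' (Nat.lt_succ_of_le hP), Finset.sum_range_succ, h1, one_mul, add_comm]

/-- Claim 1: no new roots are acquired along a family which starts at the point. -/
theorem claim1 (e : ℕ) (he : 0 < e) (D : k[X]) (F : ℕ → k[X]) (hD : D.eval 0 = 1)
    (h : ∀ y : k, y ^ e + ∑ j ∈ Finset.range e, (F j).eval 0 * y ^ j ≠ 0) (r : RatFunc k) :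
    (Pi' e D F).eval₂ (algebraMap k[X] (RatFunc k)) r ≠ 0 := by
  intro hr
  set n := r.num with hn
  set m := r.denom with hm
  have hm0 : algebraMap k[X] (RatFunc k) m ≠ 0 := RatFunc.algebraMap_ne_zero r.denom_ne_zero
  have hnm : r * algebraMap k[X] (RatFunc k) m = algebraMap k[X] (RatFunc k) n := by
    have h1 := RatFunc.num_div_denom r
    rw [div_eq_iff hm0] at h1
    exact h1.symm
  have h1 : algebraMap k[X] (RatFunc k) D * r ^ e +
      ∑ j ∈ Finset.range e, algebraMap k[X] (RatFunc k) (F j) * r ^ j = 0 := by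
    rw [← hr]
    simp [Pi', eval₂_add, eval₂_finsetSum, eval₂_mul, eval₂_pow]
  have h2 : D * n ^ e + ∑ j ∈ Finset.range e, F j * n ^ j * m ^ (e - j) = 0 := by
    apply RatFunc.algebraMap_injective k
    rw [map_add, map_sum, map_zero]
    have h3 : algebraMap k[X] (RatFunc k) m ^ e * (algebraMap k[X] (RatFunc k) D * r ^ e +
        ∑ j ∈ Finset.range e, algebraMap k[X] (RatFunc k) (F j) * r ^ j) = 0 := by
      rw [h1, mul_zero]
    rw [← h3, mul_add, Finset.mul_sum]
    congr 1
    · rw [map_mul, map_pow, ← hnm]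
      ring
    · refine Finset.sum_congr rfl fun j hj => ?_
      have hj' := Finset.mem_range.1 hj
      rw [map_mul, map_mul, map_pow, map_pow, ← hnm]
      have h4 : algebraMap k[X] (RatFunc k) m ^ e =
          algebraMap k[X] (RatFunc k) m ^ (e - j) * algebraMap k[X] (RatFunc k) m ^ j := by
        rw [← pow_add]
        congr 1
        omega
      rw [h4]
      ring
  have h3 := congrArg (Polynomial.eval 0) h2
  rw [eval_add, eval_mul, eval_pow, hD, one_mul, eval_finsetSum, eval_zero] at h3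
  simp only [eval_mul, eval_pow] at h3
  by_cases hm1 : m.eval 0 = 0
  · have h4 : n.eval 0 = 0 := by
      have h5 : ∑ j ∈ Finset.range e, (F j).eval 0 * n.eval 0 ^ j * m.eval 0 ^ (e - j) = 0 := by
        refine Finset.sum_eq_zero fun j hj => ?_
        have hj' := Finset.mem_range.1 hj
        rw [hm1, zero_pow (by omega), mul_zero]
      rw [h5, add_zero] at h3
      exact pow_eq_zero_iff he.ne' |>.1 h3
    obtain ⟨u, v, huv⟩ := RatFunc.isCoprime_num_denom r
    have h5 := congrArg (Polynomial.eval 0) huv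
    rw [eval_add, eval_mul, eval_mul, ← hn, ← hm, h4, hm1, eval_one] at h5
    simp at h5
  · refine h (n.eval 0 / m.eval 0) ?_
    have h6 : m.eval 0 ^ e ≠ 0 := pow_ne_zero _ hm1
    have h9 : m.eval 0 ^ e * ((n.eval 0 / m.eval 0) ^ e +
        ∑ j ∈ Finset.range e, (F j).eval 0 * (n.eval 0 / m.eval 0) ^ j) =
        n.eval 0 ^ e + ∑ j ∈ Finset.range e, (F j).eval 0 * n.eval 0 ^ j * m.eval 0 ^ (e - j) := by
      rw [mul_add, Finset.mul_sum]
      congr 1
      · rw [div_pow, mul_div_cancel₀ _ h6]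
      · refine Finset.sum_congr rfl fun j hj => ?_
        have hj' := Finset.mem_range.1 hj
        have h7 : m.eval 0 ^ e = m.eval 0 ^ (e - j) * m.eval 0 ^ j := by
          rw [← pow_add]
          congr 1
          omega
        rw [h7, div_pow]
        have h8 : m.eval 0 ^ j ≠ 0 := pow_ne_zero _ hm1
        field_simp
    rw [h3] at h9
    exact (mul_eq_zero.1 h9).resolve_left h6

/-- `Eq'` commutes with base change -/
theorem Eq'_nat {R A : Type} [CommRing R] [CommRing A] (f : R →+* A) (e : ℕ) (D : R[X])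
    (F : ℕ → R[X]) (δ l : ℕ) :
    MvPolynomial.map f (Eq' e D F δ l) = Eq' e (D.map f) (fun j => (F j).map f) δ l := by
  have h : (MvPolynomial.map f : MvPolynomial (Fin (δ + 1)) R →+* MvPolynomial (Fin (δ + 1)) A) =
      MvPolynomial.eval₂Hom (MvPolynomial.C.comp f) MvPolynomial.X := by
    apply MvPolynomial.ringHom_ext
    · intro r
      simp
    · intro i
      simp
  rw [h, MvPolynomial.coe_eval₂Hom, Eq'_map, Eq']
  simp only [Polynomial.map_map]
  rfl

/-- `s` followed by the inclusion of `K(t)` in `K̄(t)` has no root of `P0`; in terms of equations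
without denominators. -/
def NoRoot (s : K →ₐ[k] RatFunc K) (P0 : K[X]) : Prop :=
  ∀ (D : K[X]) (F : ℕ → K[X]), D.eval 0 = 1 →
    (∀ j, s (P0.coeff j) * algebraMap K[X] (RatFunc K) D = algebraMap K[X] (RatFunc K) (F j)) →
    ∀ Z : Polynomial (AlgebraicClosure K),
      (Hp P0.natDegree (D.map (algebraMap K (AlgebraicClosure K)))
        (fun j => (F j).map (algebraMap K (AlgebraicClosure K)))).eval Z ≠ 0

theorem step (hk : W560.HP.HilbNR k) {s : K →ₐ[k] RatFunc K} (hs : IsFamily s) (L : List K[X])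
    (hL : Av k L) (hm : ∀ P ∈ L, P.Monic ∧ 0 < P.natDegree) (P0 : K[X]) (h0 : P0.Monic)
    (he : 0 < P0.natDegree) (hno : NoRoot s P0) : Av k (P0 :: L) := by
  classical
  have hm' : ∀ P ∈ P0 :: L, P.Monic ∧ 0 < P.natDegree := by
    intro P hP
    rcases List.mem_cons.1 hP with rfl | hP
    · exact ⟨h0, he⟩
    · exact hm P hP
  intro S
  obtain ⟨A, hA⟩ : ∃ A : Finset K, A = insert 0 (S ∪ (P0 :: L).toFinset.biUnion
    fun P : K[X] => P.coeffs) := ⟨_, rfl⟩
  have hSA : S ⊆ A := by
    rw [hA]
    exact Finset.subset_union_left.trans (Finset.subset_insert _ _)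
  have hcA : ∀ P ∈ P0 :: L, ∀ j, P.coeff j ∈ A := by
    intro P hP j
    rw [hA]
    by_cases hj : P.coeff j = 0
    · rw [hj]
      exact Finset.mem_insert_self _ _
    · refine Finset.mem_insert_of_mem (Finset.mem_union_right _ ?_)
      refine Finset.mem_biUnion.2 ⟨P, List.mem_toFinset.2 hP, ?_⟩
      exact Polynomial.coeff_mem_coeffs hj
  obtain ⟨D, hD, hF⟩ := common_den hs A
  choose! F hF using hF
  obtain ⟨e0, he0⟩ : ∃ e0, e0 = P0.natDegree := ⟨_, rfl⟩
  obtain ⟨δ, hδ⟩ : ∃ δ, δ = (Finset.range e0).sup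
    fun j => (F (P0.coeff j) * D ^ (e0 - 1 - j)).natDegree := ⟨_, rfl⟩
  obtain ⟨c, hc⟩ := certificate (Ω := AlgebraicClosure K) e0 D (fun j => F (P0.coeff j)) δ (by
    rw [he0]
    exact hno D (fun j => F (P0.coeff j)) hD
      (fun j => hF _ (hcA P0 (List.mem_cons_self) j)))
  obtain ⟨B, φ, hSB, hav⟩ := hL (A ∪ D.coeffs ∪ A.biUnion (fun a => (F a).coeffs) ∪
    c.support.biUnion (fun l => (c l).coeffs))
  have hAB : ∀ a ∈ A, a ∈ B := fun a ha => hSB (by
    simp only [Finset.coe_union, Set.mem_union, Finset.mem_coe]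
    exact Or.inl (Or.inl (Or.inl ha)))
  obtain ⟨D', hD'⟩ := exists_lift B D (fun a ha => hSB (by
    simp only [Finset.coe_union, Set.mem_union, Finset.mem_coe]
    exact Or.inl (Or.inl (Or.inr ha))))
  have hF' : ∀ a ∈ A, ∃ F' : B[X], F'.map (B.val : B →+* K) = F a := fun a ha =>
    exists_lift B (F a) (fun b hb => hSB (by
      simp only [Finset.coe_union, Set.mem_union, Finset.mem_coe]
      exact Or.inl (Or.inr (Finset.mem_biUnion.2 ⟨a, ha, hb⟩))))
  choose! F' hF' using hF'
  have hc' : ∀ l ∈ c.support, ∃ c' : MvPolynomial (Fin (δ + 1)) B,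
      MvPolynomial.map (B.val : B →+* K) c' = c l := fun l hl =>
    exists_lift_mv B (c l) (fun b hb => hSB (by
      simp only [Finset.coe_union, Set.mem_union, Finset.mem_coe]
      exact Or.inr (Finset.mem_biUnion.2 ⟨l, hl, hb⟩)))
  choose! c' hc' using hc'
  -- values at zero
  have hD0 : (D'.map (φ : B →+* k)).eval 0 = 1 := by
    rw [Polynomial.eval_zero_map]
    have h1 : D'.eval 0 = 1 := by
      apply val_inj B
      rw [← Polynomial.eval_zero_map, hD', hD, map_one]
    rw [h1, map_one]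
  have hF0 : ∀ a (ha : a ∈ A), ((F' a).map (φ : B →+* k)).eval 0 = φ ⟨a, hAB a ha⟩ := by
    intro a ha
    rw [Polynomial.eval_zero_map]
    have h1 : (F' a).eval 0 = ⟨a, hAB a ha⟩ := by
      apply val_inj B
      rw [← Polynomial.eval_zero_map, hF' a ha, fam_eval hs hD (hF a ha)]
      rfl
    rw [h1]
    rfl
  -- no roots over `k(t)`
  have hroot : ∀ P ∈ P0 :: L, ∀ r : RatFunc k,
      (Pi' P.natDegree (D'.map (φ : B →+* k)) (fun j => (F' (P.coeff j)).map (φ : B →+* k))).eval₂
        (algebraMap k[X] (RatFunc k)) r ≠ 0 := by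
    intro P hP
    rcases List.mem_cons.1 hP with rfl | hPL
    · intro r hr
      have h1 := Hp_root (algebraMap k[X] (RatFunc k)) _ he _ _ r hr
      rw [← he0] at h1
      have h2 : IsIntegral k[X] (algebraMap k[X] (RatFunc k) (D'.map (φ : B →+* k)) * r) :=
        ⟨_, Hp_monic _ _ _, h1⟩
      obtain ⟨Z, hZ⟩ := (IsIntegrallyClosed.isIntegral_iff (R := k[X]) (K := RatFunc k)).1 h2
      rw [← hZ] at h1
      have h3 : (Hp e0 (D'.map (φ : B →+* k))
          (fun j => (F' (P.coeff j)).map (φ : B →+* k))).eval Z = 0 := by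
        apply RatFunc.algebraMap_injective k
        rw [map_zero, ← h1, Polynomial.eval₂_at_apply]
      have h4 : Z.natDegree ≤ δ := by
        refine natDegree_root e0 _ _ δ (fun j hj => ?_) Z h3
        have h5 : ((F' (P.coeff j)).map (φ : B →+* k)) * (D'.map (φ : B →+* k)) ^ (e0 - 1 - j) =
            (F' (P.coeff j) * D' ^ (e0 - 1 - j)).map (φ : B →+* k) := by
          rw [Polynomial.map_mul, Polynomial.map_pow]
        rw [h5]
        refine natDegree_map_le.trans ?_
        have h6 : (F' (P.coeff j) * D' ^ (e0 - 1 - j)).natDegree =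
            (F (P.coeff j) * D ^ (e0 - 1 - j)).natDegree := by
          rw [← natDegree_map_eq_of_injective (val_inj B), Polynomial.map_mul,
            Polynomial.map_pow, hD', hF' _ (hcA P hP j)]
        rw [h6, hδ]
        exact Finset.le_sup (f := fun j => (F (P.coeff j) * D ^ (e0 - 1 - j)).natDegree)
          (Finset.mem_range.2 hj)
      have h5 : ∀ l, MvPolynomial.eval₂ (φ : B →+* k) (fun i : Fin (δ + 1) => Z.coeff i)
          (Eq' e0 D' (fun j => F' (P.coeff j)) δ l) = 0 := by
        intro l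
        rw [Eq'_map, sum_coeff δ Z h4, h3, coeff_zero]
      have h6 : ∑ l ∈ c.support, c' l * Eq' e0 D' (fun j => F' (P.coeff j)) δ l = 1 := by
        apply MvPolynomial.map_injective (B.val : B →+* K) (val_inj B)
        rw [map_one, map_sum, ← hc, Finsupp.sum]
        refine Finset.sum_congr rfl fun l hl => ?_
        rw [map_mul, hc' l hl, Eq'_nat, hD']
        congr 2
        funext j
        exact hF' _ (hcA P hP j)
      have h7 := congrArg (MvPolynomial.eval₂Hom (φ : B →+* k)
        (fun i : Fin (δ + 1) => Z.coeff i)) h6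
      rw [map_sum, map_one] at h7
      refine one_ne_zero (α := k) ?_
      rw [← h7]
      refine Finset.sum_eq_zero fun l _ => ?_
      rw [map_mul]
      change _ * MvPolynomial.eval₂ (φ : B →+* k) _ _ = 0
      rw [h5 l, mul_zero]
    · obtain ⟨P', hP', hno'⟩ := hav P hPL
      have hP1 := hm P hPL
      refine claim1 _ hP1.2 _ _ hD0 fun y hy => ?_
      refine hno' y ?_
      have hdeg : (P'.map (φ : B →+* k)).natDegree ≤ P.natDegree := by
        refine natDegree_map_le.trans ?_
        rw [← hP', natDegree_map_eq_of_injective (val_inj B)]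
      have hcf : ∀ j, P'.coeff j = ⟨P.coeff j, hAB _ (hcA P hP j)⟩ := by
        intro j
        apply Subtype.ext
        change (B.val : B →+* K) (P'.coeff j) = P.coeff j
        rw [← coeff_map, hP']
      have h1 : (P'.map (φ : B →+* k)).coeff P.natDegree = 1 := by
        rw [coeff_map, hcf]
        have h2 : (⟨P.coeff P.natDegree, hAB _ (hcA P hP P.natDegree)⟩ : B) = 1 := by
          apply Subtype.ext
          exact hP1.1.coeff_natDegree
        rw [h2, map_one]
      rw [map_eval_eq _ _ hdeg h1, ← hy]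
      congr 1
      refine Finset.sum_congr rfl fun j _ => ?_
      rw [coeff_map, hcf, hF0 _ (hcA P hP j)]
      rfl
  obtain ⟨α, hα, hα2⟩ := hilb1 hk (P0 :: L).length
    (fun i => Pi' ((P0 :: L).get i).natDegree (D'.map (φ : B →+* k))
      (fun j => (F' (((P0 :: L).get i).coeff j)).map (φ : B →+* k))) (D'.map (φ : B →+* k))
    (by
      intro h
      rw [h, eval_zero] at hD0
      exact zero_ne_one hD0)
    (fun i r => hroot _ (List.get_mem _ _) r)
  obtain ⟨B', φ', hB'⟩ := comp_place s B φ α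
  have hA' : ∀ a ∈ A, ∃ ha : a ∈ B', φ' ⟨a, ha⟩ * (D'.map (φ : B →+* k)).eval α =
      ((F' a).map (φ : B →+* k)).eval α := fun a ha => hB' a (F' a) D' hα (by
    rw [inc_apply, inc_apply, hD', hF' a ha]
    exact hF a ha)
  refine ⟨B', φ', fun a ha => (hA' a (hSA ha)).1, fun P hP => ?_⟩
  obtain ⟨Q, hQ⟩ := exists_lift B' P (fun a ha => by
    obtain ⟨j, _, rfl⟩ := Polynomial.mem_coeffs_iff.1 ha
    exact (hA' _ (hcA P hP j)).1)
  refine ⟨Q, hQ, fun x hx => ?_⟩
  obtain ⟨i, hi⟩ := List.get_of_mem hP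
  refine hα2 i x ?_
  have hcf : ∀ j, Q.coeff j = ⟨P.coeff j, (hA' _ (hcA P hP j)).1⟩ := by
    intro j
    apply Subtype.ext
    change (B'.val : B' →+* K) (Q.coeff j) = P.coeff j
    rw [← coeff_map, hQ]
  have hdeg : (Q.map (φ' : B' →+* k)).natDegree ≤ P.natDegree := by
    refine natDegree_map_le.trans ?_
    rw [← hQ, natDegree_map_eq_of_injective (val_inj B')]
  have h1 : (Q.map (φ' : B' →+* k)).coeff P.natDegree = 1 := by
    rw [coeff_map, hcf]
    have h2 : (⟨P.coeff P.natDegree, (hA' _ (hcA P hP P.natDegree)).1⟩ : B') = 1 := by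
      apply Subtype.ext
      exact (hm' P hP).1.coeff_natDegree
    rw [h2, map_one]
  rw [map_eval_eq _ _ hdeg h1] at hx
  rw [hi]
  have h3 : ((Pi' P.natDegree (D'.map (φ : B →+* k))
      (fun j => (F' (P.coeff j)).map (φ : B →+* k))).map (evalRingHom α)).eval x =
      (D'.map (φ : B →+* k)).eval α * (x ^ P.natDegree +
        ∑ j ∈ Finset.range P.natDegree, (Q.map (φ' : B' →+* k)).coeff j * x ^ j) := by
    rw [Pi', Polynomial.map_add, Polynomial.map_mul, Polynomial.map_pow, Polynomial.map_C,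
      Polynomial.map_X, Polynomial.map_sum, eval_add, eval_mul, eval_C, eval_pow, eval_X,
      eval_finsetSum, mul_add, Finset.mul_sum]
    congr 1
    refine Finset.sum_congr rfl fun j _ => ?_
    rw [Polynomial.map_mul, Polynomial.map_C, Polynomial.map_pow, Polynomial.map_X, eval_mul,
      eval_C, eval_pow, eval_X, coeff_map, hcf]
    have h4 := (hA' _ (hcA P hP j)).2
    change ((F' (P.coeff j)).map (φ : B →+* k)).eval α * x ^ j = _
    rw [← h4]
    change _ = (D'.map (φ : B →+* k)).eval α * (φ' ⟨P.coeff j, _⟩ * x ^ j)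
    ring
  rw [h3, hx, mul_zero]

end

end Pool.Agent.R70.HC
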