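import Mathlib
import Pool.Agent.R70.HC.Step

/-! A family which has a root of `P0` in `K̄(t)` lifts to the cover given by `P0` (helper70). -/

set_option autoImplicit false

open Polynomial

namespace Pool.Agent.R70.HC

theorem toM_inj (K M : Type) [Field K] [Field M] [Algebra K M] : Function.Injective
    ((algebraMap M[X] (RatFunc M)).comp (mapRingHom (algebraMap K M))) := by
  refine (RatFunc.algebraMap_injective M).comp ?_
  rw [coe_mapRingHom]
  exact Polynomial.map_injective _ (algebraMap K M).injective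

/-- the inclusion of `K(t)` in `M(t)` -/
noncomputable def toM (K M : Type) [Field K] [Field M] [Algebra K M] : RatFunc K →+* RatFunc M :=
  IsFractionRing.lift (A := K[X]) (K := RatFunc K) (toM_inj K M)

theorem toM_poly {K M : Type} [Field K] [Field M] [Algebra K M] (f : K[X]) :
    toM K M (algebraMap K[X] (RatFunc K) f) =
      algebraMap M[X] (RatFunc M) (f.map (algebraMap K M)) :=
  IsFractionRing.lift_algebraMap (A := K[X]) (K := RatFunc K) (toM_inj K M) f

/-- The family `s` of curves on the variety with function field `K` lifts to the cover with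
function field `M`. -/
def Lifts {k K : Type} [Field k] [Field K] [Algebra k K] (s : K →ₐ[k] RatFunc K) (M : Type)
    [Field M] [Algebra K M] : Prop :=
  ∃ s' : M →+* RatFunc M, ∀ a : K, s' (algebraMap K M a) = toM K M (s a)

theorem unique_root {Ω : Type} [Field Ω] (H : Polynomial (Polynomial Ω)) (Z Z' : Polynomial Ω)
    (hZ : H.eval Z = 0) (hZ' : H.eval Z' = 0) (h0 : Z.eval 0 = Z'.eval 0)
    (hd : (H.derivative.eval Z).eval 0 ≠ 0) : Z = Z' := by
  obtain ⟨c, hc⟩ := binomExpansion H Z (Z' - Z)
  rw [add_sub_cancel, hZ, hZ', zero_add] at hc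
  have h1 : (Z' - Z) * (H.derivative.eval Z + c * (Z' - Z)) = 0 := by
    rw [hc]
    ring
  rcases mul_eq_zero.1 h1 with h2 | h2
  · exact (sub_eq_zero.1 h2).symm
  · exfalso
    apply hd
    have h3 := congrArg (Polynomial.eval 0) h2
    rw [eval_add, eval_mul, eval_sub, h0, sub_self, mul_zero, add_zero, eval_zero] at h3
    exact h3

section

variable {k K : Type} [Field k] [Field K] [Algebra k K]

theorem Hp_zero {M : Type} [Field M] [Algebra K M] (P0 : K[X]) (hm : P0.Monic) (D : K[X])
    (F : ℕ → K[X]) (hD : D.eval 0 = 1) (hF : ∀ j, (F j).eval 0 = P0.coeff j) :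
    (Hp P0.natDegree (D.map (algebraMap K M)) (fun j => (F j).map (algebraMap K M))).map
      (evalRingHom 0) = P0.map (algebraMap K M) := by
  have h1 : ∀ f : K[X], (f.map (algebraMap K M)).eval 0 = algebraMap K M (f.eval 0) := fun f =>
    Polynomial.eval_zero_map _ _
  conv_rhs => rw [hm.as_sum]
  rw [Hp, Polynomial.map_add, Polynomial.map_pow, Polynomial.map_X, Polynomial.map_sum,
    Polynomial.map_add, Polynomial.map_pow, Polynomial.map_X, Polynomial.map_sum]
  congr 1
  refine Finset.sum_congr rfl fun j _ => ?_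
  rw [Polynomial.map_mul, Polynomial.map_C, Polynomial.map_pow, Polynomial.map_X,
    Polynomial.map_mul, Polynomial.map_C, Polynomial.map_pow, Polynomial.map_X, coe_evalRingHom,
    eval_mul, eval_pow, h1, h1, hD, hF, map_one, one_pow, mul_one]

/-- roots with numerator `Z` and denominator `D` -/
theorem root_of_Hp {M : Type} [Field M] [Algebra K M] (s : K →ₐ[k] RatFunc K) (P0 : K[X])
    (hm : P0.Monic) (D : K[X]) (F : ℕ → K[X]) (hD : D.eval 0 = 1)
    (hF : ∀ j, s (P0.coeff j) * algebraMap K[X] (RatFunc K) D =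
      algebraMap K[X] (RatFunc K) (F j)) (Z : M[X])
    (hZ : (Hp P0.natDegree (D.map (algebraMap K M)) (fun j => (F j).map (algebraMap K M))).eval Z
      = 0) :
    P0.eval₂ ((toM K M).comp (s : K →+* RatFunc K))
      (algebraMap M[X] (RatFunc M) Z / algebraMap M[X] (RatFunc M) (D.map (algebraMap K M))) = 0 := by
  set i := algebraMap M[X] (RatFunc M) with hi
  set d := i (D.map (algebraMap K M)) with hd
  have hD0 : D.map (algebraMap K M) ≠ 0 := by
    intro h
    have h1 : D = 0 := (Polynomial.map_eq_zero _).1 h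
    rw [h1, eval_zero] at hD
    exact zero_ne_one hD
  have hd0 : d ≠ 0 := by
    rw [hd, Ne, map_eq_zero_iff _ (RatFunc.algebraMap_injective M)]
    exact hD0
  set r := i Z / d with hr
  have hZr : i Z = d * r := by
    rw [hr]
    field_simp
  have hc : ∀ j, ((toM K M).comp (s : K →+* RatFunc K)) (P0.coeff j) * d =
      i ((F j).map (algebraMap K M)) := by
    intro j
    rw [hd, hi, ← toM_poly, ← toM_poly, ← hF j, map_mul]
    rfl
  have h1 : i ((Hp P0.natDegree (D.map (algebraMap K M))
      (fun j => (F j).map (algebraMap K M))).eval Z) = d ^ P0.natDegree *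
      P0.eval₂ ((toM K M).comp (s : K →+* RatFunc K)) r := by
    have h2 : P0.eval₂ ((toM K M).comp (s : K →+* RatFunc K)) r = r ^ P0.natDegree +
        ∑ j ∈ Finset.range P0.natDegree, ((toM K M).comp (s : K →+* RatFunc K)) (P0.coeff j) *
          r ^ j := by
      rw [eval₂_eq_sum_range, Finset.sum_range_succ, hm.coeff_natDegree, map_one, one_mul,
        add_comm]
    rw [h2, Hp, eval_add, eval_pow, eval_X, eval_finsetSum, map_add, map_pow, map_sum, hZr,
      mul_add, Finset.mul_sum, mul_pow]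
    congr 1
    refine Finset.sum_congr rfl fun j hj => ?_
    have hj' := Finset.mem_range.1 hj
    rw [eval_mul, eval_C, eval_pow, eval_X, map_mul, map_mul, map_pow, map_pow, hZr, ← hc j]
    have h3 : d ^ P0.natDegree = d * d ^ (P0.natDegree - 1 - j) * d ^ j := by
      rw [← pow_succ', ← pow_add]
      congr 1
      omega
    rw [h3, ← hd, mul_pow]
    ring
  rw [hZ, map_zero] at h1
  exact (mul_eq_zero.1 h1.symm).resolve_left (pow_ne_zero _ hd0)

theorem lifts_of_root [CharZero K] {s : K →ₐ[k] RatFunc K} (hs : IsFamily s) (P0 : K[X])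
    [hirr : Fact (Irreducible P0)] (hm : P0.Monic) (D : K[X]) (F : ℕ → K[X])
    (hD : D.eval 0 = 1)
    (hF : ∀ j, s (P0.coeff j) * algebraMap K[X] (RatFunc K) D =
      algebraMap K[X] (RatFunc K) (F j)) (Z : Polynomial (AlgebraicClosure K))
    (hZ : (Hp P0.natDegree (D.map (algebraMap K (AlgebraicClosure K)))
        (fun j => (F j).map (algebraMap K (AlgebraicClosure K)))).eval Z = 0) :
    Lifts s (AdjoinRoot P0) := by
  have hF0 : ∀ j, (F j).eval 0 = P0.coeff j := fun j => fam_eval hs hD (hF j)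
  let Ω := AlgebraicClosure K
  obtain ⟨θ, hθ⟩ : ∃ θ : Ω, θ = Z.eval 0 := ⟨_, rfl⟩
  set H := Hp P0.natDegree (D.map (algebraMap K Ω)) (fun j => (F j).map (algebraMap K Ω)) with hH
  have hH0 : H.map (evalRingHom 0) = P0.map (algebraMap K Ω) := Hp_zero P0 hm D F hD hF0
  have hθ0 : (P0.map (algebraMap K Ω)).eval θ = 0 := by
    rw [← hH0, hθ]
    have h1 := Polynomial.eval_map_apply (p := H) (evalRingHom 0) Z
    rw [coe_evalRingHom] at h1
    rw [h1, hZ, eval_zero]
  have hsep : P0.Separable := hirr.out.separable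
  have hder : ((H.derivative).eval Z).eval 0 ≠ 0 := by
    have h1 := Polynomial.eval_map_apply (p := H.derivative) (evalRingHom 0) Z
    rw [coe_evalRingHom] at h1
    rw [← h1, ← hθ, ← derivative_map, hH0, derivative_map]
    have h2 := hsep.map (f := algebraMap K Ω)
    intro h3
    obtain ⟨u, v, huv⟩ := h2
    have h4 := congrArg (Polynomial.eval θ) huv
    rw [eval_add, eval_mul, eval_mul, hθ0, derivative_map, h3, mul_zero, mul_zero, add_zero,
      eval_one] at h4
    exact zero_ne_one h4
  have hθe : P0.eval₂ (algebraMap K Ω) θ = 0 := by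
    rw [← eval_map]
    exact hθ0
  let ρ : AdjoinRoot P0 →ₐ[K] Ω := AdjoinRoot.liftAlgHom P0 (Algebra.ofId K Ω) θ hθe
  have hρ : ρ (AdjoinRoot.root P0) = θ := AdjoinRoot.liftAlgHom_root _ _ _ _
  let E : IntermediateField K Ω := ρ.fieldRange
  have hnorm : Normal E Ω := by
    have : IsAlgClosure E Ω := by
      refine ⟨inferInstance, ?_⟩
      exact Algebra.IsAlgebraic.tower_top (K := K) E
    exact IsAlgClosure.normal E Ω
  have hGal : IsGalois E Ω := ⟨⟩
  have hθE : θ ∈ E := ⟨_, hρ⟩
  have hcoeff : ∀ n, Z.coeff n ∈ E := by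
    intro n
    have h1 : Z.coeff n ∈ (⊥ : IntermediateField E Ω) := by
      rw [InfiniteGalois.mem_bot_iff_fixed]
      intro σ
      have h2 : Z.map (σ : Ω →+* Ω) = Z := by
        refine (unique_root H Z (Z.map (σ : Ω →+* Ω)) hZ ?_ ?_ hder).symm
        · have h3 : H.map (mapRingHom (σ : Ω →+* Ω)) = H := by
            rw [hH, Hp_map]
            have h4 : (σ : Ω →+* Ω).comp (algebraMap K Ω) = algebraMap K Ω := by
              ext a
              have h5 : algebraMap K Ω a = algebraMap E Ω (algebraMap K E a) := rfl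
              change σ (algebraMap K Ω a) = _
              rw [h5, σ.commutes]
            simp only [Polynomial.map_map, h4]
          have h4 := Polynomial.eval_map_apply (p := H) (mapRingHom (σ : Ω →+* Ω)) Z
          rw [h3, coe_mapRingHom] at h4
          rw [h4, hZ, Polynomial.map_zero]
        · rw [Polynomial.eval_zero_map, ← hθ]
          exact (σ.commutes ⟨θ, hθE⟩).symm
      have h3 := congrArg (fun p : Polynomial Ω => p.coeff n) h2
      simpa using h3
    obtain ⟨y, hy⟩ := IntermediateField.mem_bot.1 h1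
    rw [← hy]
    exact y.2
  obtain ⟨ZM, hZM⟩ : ∃ ZM : (AdjoinRoot P0)[X], ZM.map (ρ : AdjoinRoot P0 →+* Ω) = Z := by
    have h1 : Z ∈ lifts (ρ : AdjoinRoot P0 →+* Ω) := by
      rw [lifts_iff_coeff_lifts]
      intro n
      obtain ⟨y, hy⟩ := hcoeff n
      exact ⟨y, hy⟩
    exact (mem_lifts Z).1 h1
  have hroot : (Hp P0.natDegree (D.map (algebraMap K (AdjoinRoot P0)))
      (fun j => (F j).map (algebraMap K (AdjoinRoot P0)))).eval ZM = 0 := by
    apply Polynomial.map_injective (ρ : AdjoinRoot P0 →+* Ω) ρ.injective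
    rw [Polynomial.map_zero]
    have h4 := Polynomial.eval_map_apply (p := Hp P0.natDegree
      (D.map (algebraMap K (AdjoinRoot P0))) (fun j => (F j).map (algebraMap K (AdjoinRoot P0))))
      (mapRingHom (ρ : AdjoinRoot P0 →+* Ω)) ZM
    rw [coe_mapRingHom, Hp_map, hZM] at h4
    have h5 : (ρ : AdjoinRoot P0 →+* Ω).comp (algebraMap K (AdjoinRoot P0)) = algebraMap K Ω :=
      ρ.comp_algebraMap
    simp only [Polynomial.map_map, h5] at h4
    rw [← h4]
    exact hZ
  have hfin := root_of_Hp (M := AdjoinRoot P0) s P0 hm D F hD hF ZM hroot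
  obtain ⟨r, hr⟩ : ∃ r, P0.eval₂ ((toM K (AdjoinRoot P0)).comp (s : K →+* RatFunc K)) r = 0 :=
    ⟨_, hfin⟩
  refine ⟨AdjoinRoot.lift ((toM K (AdjoinRoot P0)).comp (s : K →+* RatFunc K)) r hr, ?_⟩
  intro a
  rw [AdjoinRoot.algebraMap_eq, AdjoinRoot.lift_of]
  rfl

theorem noRoot_of_not_lifts [CharZero K] {s : K →ₐ[k] RatFunc K} (hs : IsFamily s) (P0 : K[X])
    [Fact (Irreducible P0)] (hm : P0.Monic) (h : ¬ Lifts s (AdjoinRoot P0)) : NoRoot s P0 :=
  fun D F hD hF Z hZ => h (lifts_of_root hs P0 hm D F hD hF Z hZ)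

end

end Pool.Agent.R70.HC
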