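import Mathlib
import Pool.Agent.R70.HC.Lift

/-! From points avoiding irreducible polynomials to the Hilbert property (helper70). -/

set_option autoImplicit false

open Polynomial

namespace Pool.Agent.R70.HC

section

variable {k K : Type} [Field k] [Field K] [Algebra k K]

/-- covers which are not geometrically irreducible can be avoided -/
theorem av_nongeo (L : List K[X]) (hL : Av k L) (P0 : K[X]) [Fact (Irreducible P0)]
    (c : AdjoinRoot P0) (hc : IsAlgebraic k c) (hc' : c ∉ Set.range (algebraMap k (AdjoinRoot P0))) :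
    Av k (P0 :: L) := by
  intro S
  obtain ⟨m, hm⟩ : ∃ m, m = minpoly k c := ⟨_, rfl⟩
  have hint : IsIntegral k c := hc.isIntegral
  obtain ⟨h, hh⟩ := AdjoinRoot.mk_surjective (g := P0) c
  have hdvd : P0 ∣ (m.map (algebraMap k K)).comp h := by
    rw [← AdjoinRoot.mk_eq_zero]
    have h1 : AdjoinRoot.mk P0 ((m.map (algebraMap k K)).comp h) = aeval c m := by
      rw [comp, hom_eval₂, hh, eval₂_map, aeval_def]
      congr 1
    rw [h1, hm, minpoly.aeval]
  obtain ⟨q, hq⟩ := hdvd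
  classical
  obtain ⟨B, φ, hSB, hav⟩ := hL (S ∪ h.coeffs ∪ q.coeffs ∪ P0.coeffs)
  have hs : ∀ a, a ∈ S ∨ a ∈ h.coeffs ∨ a ∈ q.coeffs ∨ a ∈ P0.coeffs → a ∈ B := by
    intro a ha
    apply hSB
    simp only [Finset.coe_union, Set.mem_union, Finset.mem_coe]
    tauto
  obtain ⟨h', hh'⟩ := exists_lift B h fun a ha => hs a (Or.inr (Or.inl ha))
  obtain ⟨q', hq'⟩ := exists_lift B q fun a ha => hs a (Or.inr (Or.inr (Or.inl ha)))
  obtain ⟨P', hP'⟩ := exists_lift B P0 fun a ha => hs a (Or.inr (Or.inr (Or.inr ha)))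
  refine ⟨B, φ, fun a ha => hs a (Or.inl ha), fun P hP => ?_⟩
  rcases List.mem_cons.1 hP with rfl | hP
  · refine ⟨P', hP', fun x hx => ?_⟩
    have h1 : (m.map (algebraMap k B)).comp h' = P' * q' := by
      apply Polynomial.map_injective _ (val_inj B)
      rw [Polynomial.map_comp, Polynomial.map_mul, hh', hP', hq', Polynomial.map_map, ← hq]
      congr 2
    have h2 := congrArg (fun p : B[X] => (p.map (φ : B →+* k)).eval x) h1
    simp only [Polynomial.map_comp, Polynomial.map_mul, Polynomial.map_map, eval_comp,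
      eval_mul] at h2
    rw [hx, zero_mul] at h2
    have h3 : (φ : B →+* k).comp (algebraMap k B) = RingHom.id k := by
      ext a
      exact φ.commutes a
    rw [h3, Polynomial.map_id] at h2
    rw [hm] at h2
    exact hc' ⟨_, minpoly.root hint h2⟩
  · exact hav P hP

theorem av_list [CharZero K] (hk : W560.HP.HilbNR k) (h0 : Av k ([] : List K[X]))
    (L : List K[X]) (hL : ∀ P ∈ L, P.Monic ∧ ∃ _ : Fact (Irreducible P),
      (∃ c : AdjoinRoot P, IsAlgebraic k c ∧ c ∉ Set.range (algebraMap k (AdjoinRoot P))) ∨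
      ∃ s : K →ₐ[k] RatFunc K, IsFamily s ∧ ¬ Lifts s (AdjoinRoot P)) : Av k L := by
  induction L with
  | nil => exact h0
  | cons P L ih =>
    have h1 := ih fun Q hQ => hL Q (List.mem_cons_of_mem _ hQ)
    obtain ⟨hPm, hPi, h2⟩ := hL P List.mem_cons_self
    rcases h2 with ⟨c, hc, hc'⟩ | ⟨s, hs, hl⟩
    · exact av_nongeo L h1 P c hc hc'
    · refine step hk hs L h1 (fun Q hQ => ?_) P hPm hPi.out.natDegree_pos
        (noRoot_of_not_lifts hs P hPm hl)
      obtain ⟨hQm, hQi, -⟩ := hL Q (List.mem_cons_of_mem _ hQ)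
      exact ⟨hQm, hQi.out.natDegree_pos⟩

theorem Avoids.mul {B : Subalgebra k K} {φ : B →ₐ[k] k} {P Q : K[X]} (hP : Avoids B φ P)
    (hQ : Avoids B φ Q) : Avoids B φ (P * Q) := by
  obtain ⟨P', h1, h2⟩ := hP
  obtain ⟨Q', h3, h4⟩ := hQ
  refine ⟨P' * Q', by rw [Polynomial.map_mul, h1, h3], fun x => ?_⟩
  rw [Polynomial.map_mul, eval_mul]
  exact mul_ne_zero (h2 x) (h4 x)

theorem Avoids.one {B : Subalgebra k K} {φ : B →ₐ[k] k} : Avoids B φ 1 :=
  ⟨1, Polynomial.map_one _, fun x => by rw [Polynomial.map_one, eval_one]; exact one_ne_zero⟩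

theorem Avoids.const {B : Subalgebra k K} {φ : B →ₐ[k] k} {c : K} (hc : c ≠ 0) (h1 : c ∈ B)
    (h2 : c⁻¹ ∈ B) : Avoids B φ (C c) := by
  refine ⟨C ⟨c, h1⟩, by rw [Polynomial.map_C]; rfl, fun x => ?_⟩
  rw [Polynomial.map_C, eval_C]
  intro h0
  have h3 : φ ⟨c, h1⟩ * φ ⟨c⁻¹, h2⟩ = 1 := by
    rw [← map_mul]
    have : (⟨c, h1⟩ * ⟨c⁻¹, h2⟩ : B) = 1 := Subtype.ext (mul_inv_cancel₀ hc)
    rw [this, map_one]
  have h4 : φ ⟨c, h1⟩ = 0 := h0
  rw [h4, zero_mul] at h3
  exact zero_ne_one h3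

theorem Avoids.multiset_prod {B : Subalgebra k K} {φ : B →ₐ[k] k} (s : Multiset K[X])
    (h : ∀ P ∈ s, Avoids B φ P) : Avoids B φ s.prod := by
  induction s using Multiset.induction_on with
  | empty => rw [Multiset.prod_zero]; exact Avoids.one
  | cons P s ih =>
    rw [Multiset.prod_cons]
    exact (h P (Multiset.mem_cons_self _ _)).mul
      (ih fun Q hQ => h Q (Multiset.mem_cons_of_mem hQ))

open UniqueFactorizationMonoid in
/-- The Hilbert property of the function field. -/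
theorem hpf [CharZero K] (hk : W560.HP.HilbNR k) (h0 : Av k ([] : List K[X]))
    (H : ∀ (P : K[X]) [Fact (Irreducible P)], P.Monic → (∀ x : K, P.eval x ≠ 0) →
      (∀ c : AdjoinRoot P, IsAlgebraic k c → c ∈ Set.range (algebraMap k (AdjoinRoot P))) →
      ∃ s : K →ₐ[k] RatFunc K, IsFamily s ∧ ¬ Lifts s (AdjoinRoot P)) : W560.HP.HPF k K := by
  classical
  intro q P hP S
  have hP0 : ∀ j, P j ≠ 0 := fun j h => hP j 0 (by rw [h, eval_zero])
  obtain ⟨L, hL⟩ : ∃ L : List K[X], ∀ Q, Q ∈ L ↔ ∃ j, Q ∈ normalizedFactors (P j) := by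
    refine ⟨(Finset.univ.biUnion fun j : Fin q => (normalizedFactors (P j)).toFinset).toList,
      fun Q => ?_⟩
    rw [Finset.mem_toList, Finset.mem_biUnion]
    simp only [Finset.mem_univ, true_and, Multiset.mem_toFinset]
  have hLav : Av k L := by
    refine av_list hk h0 L fun Q hQ => ?_
    obtain ⟨j, hj⟩ := (hL Q).1 hQ
    have hQi : Fact (Irreducible Q) := ⟨irreducible_of_normalized_factor Q hj⟩
    have hQm : Q.Monic := by
      have h1 := normalize_normalized_factor Q hj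
      rw [← h1]
      exact monic_normalize hQi.out.ne_zero
    refine ⟨hQm, hQi, ?_⟩
    by_cases hc : ∃ c : AdjoinRoot Q, IsAlgebraic k c ∧
        c ∉ Set.range (algebraMap k (AdjoinRoot Q))
    · exact Or.inl hc
    · right
      push Not at hc
      refine H Q hQm (fun x hx => ?_) hc
      obtain ⟨R, hR⟩ := dvd_of_mem_normalizedFactors hj
      refine hP j x ?_
      rw [hR, eval_mul, hx, zero_mul]
  obtain ⟨B, φ, hSB, hav⟩ := hLav (S ∪ Finset.univ.image (fun j => (P j).leadingCoeff) ∪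
    Finset.univ.image (fun j => (P j).leadingCoeff⁻¹))
  have hs : ∀ a, a ∈ S ∨ (∃ j, (P j).leadingCoeff = a) ∨ (∃ j, (P j).leadingCoeff⁻¹ = a) →
      a ∈ B := by
    intro a ha
    apply hSB
    simp only [Finset.coe_union, Set.mem_union, Finset.mem_coe, Finset.mem_image,
      Finset.mem_univ, true_and]
    tauto
  have hall : ∀ j, Avoids B φ (P j) := by
    intro j
    rw [← leadingCoeff_mul_prod_normalizedFactors (P j)]
    refine Avoids.mul (Avoids.const (leadingCoeff_ne_zero.2 (hP0 j)) (hs _ (Or.inr (Or.inl ⟨j, rfl⟩)))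
      (hs _ (Or.inr (Or.inr ⟨j, rfl⟩)))) (Avoids.multiset_prod _ fun Q hQ => ?_)
    exact hav Q ((hL Q).2 ⟨j, hQ⟩)
  choose P' hP' hno using hall
  exact ⟨B, φ, P', fun a ha => hs a (Or.inl ha), hP', hno⟩

/-- points -/
theorem av_nil (h : ∀ (N : ℕ) (x : Fin N → K), ∃ c : Fin N → k,
    ∀ P : MvPolynomial (Fin N) k, MvPolynomial.aeval x P = 0 → MvPolynomial.eval c P = 0) :
    Av k ([] : List K[X]) := by
  intro S
  let x : Fin S.card → K := fun i => (S.equivFin.symm i : K)
  obtain ⟨c, hc⟩ := h S.card x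
  let f : MvPolynomial (Fin S.card) k →ₐ[k] K := MvPolynomial.aeval x
  let g : (MvPolynomial (Fin S.card) k ⧸ RingHom.ker f) →ₐ[k] k :=
    Ideal.Quotient.liftₐ (RingHom.ker f) (MvPolynomial.aeval c) (by
      intro P hP
      have h1 := hc P hP
      rw [← MvPolynomial.coe_aeval_eq_eval] at h1
      exact h1)
  let e : (MvPolynomial (Fin S.card) k ⧸ RingHom.ker f) ≃ₐ[k] f.range :=
    Ideal.quotientKerEquivRange f
  refine ⟨f.range, g.comp (e.symm : f.range →ₐ[k] _), ?_, fun P hP => by simp at hP⟩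
  intro a ha
  refine ⟨MvPolynomial.X (S.equivFin ⟨a, ha⟩), ?_⟩
  change MvPolynomial.aeval x _ = a
  rw [MvPolynomial.aeval_X]
  change ((S.equivFin.symm (S.equivFin ⟨a, ha⟩) : S) : K) = a
  rw [Equiv.symm_apply_apply]

end

end Pool.Agent.R70.HC
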