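import Mathlib
import Pool.Agent.R70.HC.Lift

/-! A family which lifts to a cover lifts to its Galois closure (helper70). -/

set_option autoImplicit false

open Polynomial

namespace Pool.Agent.R70.HC

theorem ratFunc_hom_ext {K L : Type} [Field K] [Field L] {f g : RatFunc K →+* L}
    (h : ∀ p : K[X], f (algebraMap K[X] (RatFunc K) p) = g (algebraMap K[X] (RatFunc K) p)) :
    f = g := by
  ext x
  rw [← RatFunc.num_div_denom x, map_div₀, map_div₀, h, h]

theorem toM_toM {K M N : Type} [Field K] [Field M] [Field N] [Algebra K M] [Algebra K N]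
    [Algebra M N] [IsScalarTower K M N] (f : RatFunc K) :
    toM M N (toM K M f) = toM K N f := by
  have h : (toM M N).comp (toM K M) = toM K N := by
    apply ratFunc_hom_ext
    intro p
    rw [RingHom.comp_apply, toM_poly, toM_poly, toM_poly, Polynomial.map_map,
      ← IsScalarTower.algebraMap_eq]
  exact congrArg (fun g : RatFunc K →+* RatFunc N => g f) h

section

variable {k K N : Type} [Field k] [Field K] [Algebra k K] [Field N] [Algebra K N]

theorem splits_of_root [CharZero K] [Normal K N] {s : K →ₐ[k] RatFunc K} (hs : IsFamily s)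
    (P0 : K[X]) (hirr : Irreducible P0) (hm : P0.Monic)
    (hsp : (P0.map (algebraMap K N)).Splits) (r : RatFunc N)
    (hr : P0.eval₂ ((toM K N).comp (s : K →+* RatFunc K)) r = 0) :
    (P0.map ((toM K N).comp (s : K →+* RatFunc K))).Splits := by
  classical
  obtain ⟨D, hD, hF⟩ := common_den hs (insert 0 P0.coeffs)
  choose! F hF using hF
  have hcA : ∀ j, P0.coeff j ∈ insert 0 P0.coeffs := by
    intro j
    by_cases hj : P0.coeff j = 0
    · rw [hj]
      exact Finset.mem_insert_self _ _
    · exact Finset.mem_insert_of_mem (Polynomial.coeff_mem_coeffs hj)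
  have hF1 : ∀ j, s (P0.coeff j) * algebraMap K[X] (RatFunc K) D =
      algebraMap K[X] (RatFunc K) (F (P0.coeff j)) := fun j => hF _ (hcA j)
  have hF0 : ∀ j, (F (P0.coeff j)).eval 0 = P0.coeff j := fun j => fam_eval hs hD (hF1 j)
  have he : 0 < P0.natDegree := hirr.natDegree_pos
  set i := algebraMap N[X] (RatFunc N) with hi
  set d := i (D.map (algebraMap K N)) with hd
  have hD0 : D.map (algebraMap K N) ≠ 0 := by
    intro h
    have h1 : D = 0 := (Polynomial.map_eq_zero _).1 h
    rw [h1, eval_zero] at hD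
    exact zero_ne_one hD
  have hd0 : d ≠ 0 := by
    rw [hd, Ne, map_eq_zero_iff _ (RatFunc.algebraMap_injective N)]
    exact hD0
  set H := Hp P0.natDegree (D.map (algebraMap K N)) (fun j => (F (P0.coeff j)).map (algebraMap K N))
    with hH
  -- the root with denominator `D`
  have h1 : (Pi' P0.natDegree (D.map (algebraMap K N))
      (fun j => (F (P0.coeff j)).map (algebraMap K N))).eval₂ i r = 0 := by
    have h2 : P0.eval₂ ((toM K N).comp (s : K →+* RatFunc K)) r = r ^ P0.natDegree +
        ∑ j ∈ Finset.range P0.natDegree, ((toM K N).comp (s : K →+* RatFunc K)) (P0.coeff j) *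
          r ^ j := by
      rw [eval₂_eq_sum_range, Finset.sum_range_succ, hm.coeff_natDegree, map_one, one_mul,
        add_comm]
    have h3 : (Pi' P0.natDegree (D.map (algebraMap K N))
      (fun j => (F (P0.coeff j)).map (algebraMap K N))).eval₂ i r =
        d * P0.eval₂ ((toM K N).comp (s : K →+* RatFunc K)) r := by
      rw [h2, mul_add, Finset.mul_sum]
      simp only [Pi', eval₂_add, eval₂_finsetSum, eval₂_mul, eval₂_pow, eval₂_C, eval₂_X]
      congr 1
      refine Finset.sum_congr rfl fun j _ => ?_
      rw [hi, ← toM_poly, ← hF1 j, map_mul, hd, hi, ← toM_poly]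
      change _ = _ * (toM K N (s (P0.coeff j)) * _)
      ring
    rw [h3, hr, mul_zero]
  have h2 := Hp_root i _ he _ _ r h1
  obtain ⟨Z, hZ⟩ := (IsIntegrallyClosed.isIntegral_iff (R := N[X]) (K := RatFunc N)).1
    (⟨_, Hp_monic _ _ _, h2⟩ : IsIntegral N[X] (i (D.map (algebraMap K N)) * r))
  have hZH : H.eval Z = 0 := by
    apply RatFunc.algebraMap_injective N
    rw [← hZ, Polynomial.eval₂_at_apply] at h2
    rw [map_zero]
    exact h2
  have hconj : ∀ σ : N ≃ₐ[K] N, H.eval (Z.map (σ : N →+* N)) = 0 := by
    intro σ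
    have h3 : H.map (mapRingHom (σ : N →+* N)) = H := by
      rw [hH, Hp_map]
      have h4 : (σ : N →+* N).comp (algebraMap K N) = algebraMap K N := by
        ext a
        exact σ.commutes a
      simp only [Polynomial.map_map, h4]
    have h4 := Polynomial.eval_map_apply (p := H) (mapRingHom (σ : N →+* N)) Z
    rw [h3, coe_mapRingHom] at h4
    rw [h4, hZH, Polynomial.map_zero]
  have hH0 : H.map (evalRingHom 0) = P0.map (algebraMap K N) :=
    Hp_zero P0 hm D (fun j => F (P0.coeff j)) hD hF0
  have hθ0 : aeval (Z.eval 0) P0 = 0 := by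
    rw [aeval_def, ← eval_map, ← hH0]
    have h5 := Polynomial.eval_map_apply (p := H) (evalRingHom 0) Z
    rw [coe_evalRingHom] at h5
    rw [h5, hZH, eval_zero]
  have hmin : ∀ y : N, aeval y P0 = 0 → minpoly K y = P0 := fun y hy =>
    (minpoly.eq_of_irreducible_of_monic hirr hy hm).symm
  have hex : ∀ y ∈ P0.rootSet N, ∃ σ : N ≃ₐ[K] N, σ (Z.eval 0) = y := by
    intro y hy
    have hy' : aeval y P0 = 0 := (mem_rootSet.1 hy).2
    refine minpoly.exists_algEquiv_of_root' (x := y) (y := Z.eval 0) ?_ ?_
    · exact ⟨P0, hirr.ne_zero, hθ0⟩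
    · rw [hmin _ hθ0, hy']
  choose! σ hσ using hex
  let g : N → RatFunc N := fun y => i (Z.map (σ y : N →+* N)) / d
  have hgroot : ∀ y, P0.eval₂ ((toM K N).comp (s : K →+* RatFunc K)) (g y) = 0 := fun y =>
    root_of_Hp s P0 hm D (fun j => F (P0.coeff j)) hD hF1 _ (hconj (σ y))
  have hsep : P0.Separable := hirr.separable
  have hcard := card_rootSet_eq_natDegree (K := N) hsep hsp
  have hne : P0.map ((toM K N).comp (s : K →+* RatFunc K)) ≠ 0 := (hm.map _).ne_zero
  have hle : P0.natDegree ≤
      (P0.map ((toM K N).comp (s : K →+* RatFunc K))).roots.toFinset.card := by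
    rw [← hcard, ← Set.toFinset_card]
    refine Finset.card_le_card_of_injOn g (fun y hy => ?_) (fun y hy y' hy' hyy => ?_)
    · rw [Finset.mem_coe, Multiset.mem_toFinset, mem_roots hne, IsRoot, eval_map]
      exact hgroot y
    · have hy1 : y ∈ P0.rootSet N := by simpa using hy
      have hy2 : y' ∈ P0.rootSet N := by simpa using hy'
      have h6 : i (Z.map (σ y : N →+* N)) = i (Z.map (σ y' : N →+* N)) := by
        have h7 : i (Z.map (σ y : N →+* N)) / d = i (Z.map (σ y' : N →+* N)) / d := hyy
        rwa [div_left_inj' hd0] at h7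
      have h8 := congrArg (Polynomial.eval 0) (RatFunc.algebraMap_injective N h6)
      rw [Polynomial.eval_zero_map, Polynomial.eval_zero_map] at h8
      rw [← hσ y hy1, ← hσ y' hy2]
      exact h8
  rw [splits_iff_card_roots]
  refine le_antisymm (card_roots' _) ?_
  rw [hm.natDegree_map]
  exact hle.trans (Multiset.toFinset_card_le _)

theorem hom_of_root [CharZero K] {s : K →ₐ[k] RatFunc K} (hs : IsFamily s)
    (P0 : K[X]) (hirr : Irreducible P0) (hm : P0.Monic) [P0.IsSplittingField K N] (r : RatFunc N)
    (hr : P0.eval₂ ((toM K N).comp (s : K →+* RatFunc K)) r = 0) :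
    ∃ s' : N →+* RatFunc N, ∀ a : K, s' (algebraMap K N a) = toM K N (s a) := by
  have : Normal K N := Normal.of_isSplittingField P0
  have h1 := splits_of_root (N := N) hs P0 hirr hm (IsSplittingField.splits N P0) r hr
  obtain ⟨T, _, _, f, hf⟩ : ∃ (T : Type) (_ : Field T) (_ : Algebra K T) (f : T ≃+* RatFunc N),
      ∀ a : K, f (algebraMap K T a) = toM K N (s a) :=
    ⟨RatFunc N, inferInstance, ((toM K N).comp (s : K →+* RatFunc K)).toAlgebra,
      RingEquiv.refl _, fun a => rfl⟩
  have h2 : (P0.map (algebraMap K T)).Splits := by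
    have h3 : ((toM K N).comp (s : K →+* RatFunc K)) = (f : T →+* RatFunc N).comp
        (algebraMap K T) := by
      ext a
      exact (hf a).symm
    have h4 : P0.map (algebraMap K T) = (P0.map ((toM K N).comp (s : K →+* RatFunc K))).map
        (f.symm : RatFunc N →+* T) := by
      rw [Polynomial.map_map, h3, ← RingHom.comp_assoc]
      have h5 : (f.symm : RatFunc N →+* T).comp (f : T →+* RatFunc N) = RingHom.id T := by
        ext a
        exact f.symm_apply_apply a
      rw [h5, RingHom.id_comp]
    rw [h4]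
    exact h1.map _
  let L : N →ₐ[K] T := IsSplittingField.lift N P0 h2
  refine ⟨(f : T →+* RatFunc N).comp (L : N →+* T), fun a => ?_⟩
  change f (L (algebraMap K N a)) = _
  rw [L.commutes, hf]

end

end Pool.Agent.R70.HC
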