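import Mathlib
import Pool.Agent.Y536.PS.CONJ

/-! Prime divisors on schemes, ramification, the Hilbert property (helper70). -/

set_option autoImplicit false

open AlgebraicGeometry CategoryTheory

namespace Pool.Agent.R70.HC

/-- `P` is a prime divisor on the integral `k`-scheme `X`, whose function field is identified with
`K` by `e`: the ring of `P` is the local ring of `X` at some point. -/
def PlaceOn (k : Type) [Field k] (X : Scheme.{0}) [IsIntegral X] {K : Type} [Field K] [Algebra k K]
    (e : X.functionField ≃+* K) (P : FF.Place k K) : Prop :=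
  ∃ x : X, ∀ f : K, (f = 0 ∨ 0 ≤ P.ord f) ↔
    ∃ g : X.presheaf.stalk x, e (algebraMap (X.presheaf.stalk x) X.functionField g) = f

/-- The extension `M / K` is unramified at `P`. -/
def UnramifiedAt {k K : Type} [Field k] [Field K] [Algebra k K] (M : Type) [Field M] [Algebra k M]
    [Algebra K M] (P : FF.Place k K) : Prop :=
  ∀ (Q : FF.Place k M) (n : ℕ), 0 < n → (∀ f : K, Q.ord (algebraMap K M f) = n * P.ord f) → n = 1

/-- All the ramification indices of the extension `M / K` over `P` divide `m`. -/
def RamificationDvd {k K : Type} [Field k] [Field K] [Algebra k K] (M : Type) [Field M]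
    [Algebra k M] [Algebra K M] (P : FF.Place k K) (m : ℕ) : Prop :=
  ∀ (Q : FF.Place k M) (n : ℕ), 0 < n → (∀ f : K, Q.ord (algebraMap K M f) = n * P.ord f) → n ∣ m

/-- The Hilbert property in the form used for normal schemes: for every finite family of finite
surjective morphisms `π i : Y i ⟶ X` with `Y i` integral, none of them an isomorphism, the
`k`-points of `X` which are not images of `k`-points of the `Y i` are dense in `X`. -/
def HilbertPropertyIso (k : Type) [Field k] (X : Scheme.{0}) (f : X ⟶ Spec (CommRingCat.of k)) :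
    Prop :=
  ∀ (q : ℕ) (Y : Fin q → Scheme.{0}) (π : ∀ i, Y i ⟶ X), (∀ i, IsIntegral (Y i)) →
    (∀ i, IsFinite (π i)) → (∀ i, Surjective (π i)) → (∀ i, ¬ IsIso (π i)) →
    Dense {x : X | ∃ s : Spec (CommRingCat.of k) ⟶ X, s ≫ f = 𝟙 _ ∧ x ∈ Set.range s.base ∧
      ∀ i (t : Spec (CommRingCat.of k) ⟶ Y i), t ≫ π i ≠ s}

/-- `M / K` is the extension of function fields which belongs to the morphism `π : Y ⟶ X`, the
function field of `X` being identified with `K` by `e`. -/
def IsExtensionOf {X Y : Scheme.{0}} [IsIntegral X] [IsIntegral Y] (π : Y ⟶ X) {K : Type} [Field K]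
    (e : X.functionField ≃+* K) (M : Type) [Field M] [Algebra K M] : Prop :=
  ∃ e' : Y.functionField ≃+* M, ∀ (U : X.Opens) (hU : genericPoint X ∈ U)
    (hV : genericPoint Y ∈ π ⁻¹ᵁ U) (a : Γ(X, U)),
    e' (Y.presheaf.germ (π ⁻¹ᵁ U) (genericPoint Y) hV ((π.app U).hom a)) =
      algebraMap K M (e (X.presheaf.germ U (genericPoint X) hU a))

/-- The cover `π : Y ⟶ X` is ramified in codimension one: the extension `M / K` of function fields
is ramified at some prime divisor on `X`. -/
def IsRamifiedInCodimOne (k : Type) [Field k] {X Y : Scheme.{0}} [IsIntegral X] [IsIntegral Y]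
    (π : Y ⟶ X) {K : Type} [Field K] [Algebra k K] (e : X.functionField ≃+* K) : Prop :=
  ∃ (M : Type) (_ : Field M) (_ : Algebra k M) (_ : Algebra K M) (_ : IsScalarTower k K M),
    IsExtensionOf π e M ∧ ∃ P : FF.Place k K, PlaceOn k X e P ∧ ¬ UnramifiedAt M P

end Pool.Agent.R70.HC
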