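import Mathlib
import Pool.Agent.R70.HC.Ram
import Pool.Agent.Y536.PS.CONJ
import Pool.Agent.Y500.HC.Unr

/-! Ramification of covers to which a family lifts along the divisors met by the family
(helper70). -/

set_option autoImplicit false

open Polynomial FF

namespace Pool.Agent.R70.HC

section

variable {k K : Type} [Field k] [Field K] [Algebra k K]

/-- The curves of the family `s` (through the general point) meet the divisor `P` somewhere with
multiplicity `m`: some place `E` of `K(t)` which is trivial on `K` (a point of the curve) restricts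
to `P` along `s`, with ramification index `m`. -/
def Meets (s : K →ₐ[k] RatFunc K) (P : FF.Place k K) (m : ℕ) : Prop :=
  0 < m ∧ ∃ E : FF.Place k (RatFunc K), (∀ a : K, a ≠ 0 → E.ord (RatFunc.C a) = 0) ∧
    ∀ a : K, E.ord (s a) = m * P.ord a

/-- normalising a discrete valuation -/
theorem exists_normalised {N : Type} [Field N] [Algebra k N] (v : N → ℤ) (v0 : v 0 = 0)
    (vmul : ∀ f g : N, f ≠ 0 → g ≠ 0 → v (f * g) = v f + v g)
    (vadd : ∀ f g : N, f ≠ 0 → g ≠ 0 → f + g ≠ 0 → min (v f) (v g) ≤ v (f + g))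
    (vconst : ∀ c : k, c ≠ 0 → v (algebraMap k N c) = 0) (t : N) (ht : t ≠ 0) (hvt : v t ≠ 0) :
    ∃ (g : ℤ) (Q : FF.Place k N), 0 < g ∧ ∀ f, v f = g * Q.ord f := by
  have v1 : v 1 = 0 := by
    have h := vconst 1 one_ne_zero
    rwa [map_one] at h
  have vinv : ∀ f : N, f ≠ 0 → v f⁻¹ = - v f := by
    intro f hf
    have h := vmul f f⁻¹ hf (inv_ne_zero hf)
    rw [mul_inv_cancel₀ hf, v1] at h
    omega
  let H : AddSubgroup ℤ :=
    { carrier := {z | ∃ f : N, f ≠ 0 ∧ v f = z}
      add_mem' := by
        rintro x y ⟨f, hf, rfl⟩ ⟨g, hg, rfl⟩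
        exact ⟨f * g, mul_ne_zero hf hg, vmul f g hf hg⟩
      zero_mem' := ⟨1, one_ne_zero, v1⟩
      neg_mem' := by
        rintro x ⟨f, hf, rfl⟩
        exact ⟨f⁻¹, inv_ne_zero hf, vinv f hf⟩ }
  obtain ⟨a, ha⟩ := Int.subgroup_cyclic H
  have hmem : ∀ f : N, f ≠ 0 → ∃ n : ℤ, v f = n * a := by
    intro f hf
    have h : v f ∈ H := ⟨f, hf, rfl⟩
    rw [ha, AddSubgroup.mem_closure_singleton] at h
    obtain ⟨n, hn⟩ := h
    exact ⟨n, by rw [← hn, smul_eq_mul]⟩
  have ha0 : a ≠ 0 := by
    rintro rfl
    obtain ⟨n, hn⟩ := hmem t ht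
    rw [mul_zero] at hn
    exact hvt hn
  have hdvd : ∀ f : N, |a| ∣ v f := by
    intro f
    rw [abs_dvd]
    rcases eq_or_ne f 0 with rfl | hf
    · rw [v0]
      exact dvd_zero _
    · obtain ⟨n, hn⟩ := hmem f hf
      exact ⟨n, by rw [hn, mul_comm]⟩
  have hpos : 0 < |a| := abs_pos.2 ha0
  have hdiv : ∀ f : N, v f = |a| * (v f / |a|) := fun f => (Int.mul_ediv_cancel' (hdvd f)).symm
  have haH : |a| ∈ H := by
    have h1 : a ∈ H := by
      rw [ha]
      exact AddSubgroup.subset_closure rfl
    rcases abs_choice a with h | h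
    · rw [h]; exact h1
    · rw [h]; exact H.neg_mem h1
  refine ⟨|a|, { ord := fun f => v f / |a|
                 ord_zero := by rw [v0, Int.zero_ediv]
                 ord_mul := ?_
                 ord_add := ?_
                 ord_const := ?_
                 surj := ?_ }, hpos, hdiv⟩
  · intro f g hf hg
    change v (f * g) / |a| = v f / |a| + v g / |a|
    rw [vmul f g hf hg, Int.add_ediv_of_dvd_left (hdvd f)]
  · intro f g hf hg hfg
    change min (v f / |a|) (v g / |a|) ≤ v (f + g) / |a|
    have h1 := vadd f g hf hg hfg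
    rcases min_le_iff.1 h1 with h2 | h2
    · exact (min_le_left _ _).trans (Int.ediv_le_ediv hpos h2)
    · exact (min_le_right _ _).trans (Int.ediv_le_ediv hpos h2)
  · intro c hc
    change v (algebraMap k N c) / |a| = 0
    rw [vconst c hc, Int.zero_ediv]
  · obtain ⟨f, hf, h⟩ := haH
    exact ⟨f, hf, by
      change v f / |a| = 1
      rw [h]
      exact Int.ediv_self hpos.ne'⟩

theorem ram_dvd_of_hom [CharZero k] {N : Type} [Field N] [Algebra K N] [Algebra k N]
    [IsScalarTower k K N] [FiniteDimensional K N] [Normal K N] {s : K →ₐ[k] RatFunc K}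
    (s' : N →+* RatFunc N) (hs' : ∀ a : K, s' (algebraMap K N a) = toM K N (s a))
    (P : FF.Place k K) (m : ℕ) (hP : Meets s P m) (Q : FF.Place k N) (n : ℕ) (hQ : Over Q P n) :
    n ∣ m := by
  have hcK : CharZero K := charZero_of_injective_algebraMap (algebraMap k K).injective
  obtain ⟨hm, E, hE, hEP⟩ := hP
  let iA : Algebra (RatFunc K) (RatFunc N) := (toM K N).toAlgebra
  have hC : ∀ a : K, toM K N (RatFunc.C a) = RatFunc.C (algebraMap K N a) := by
    intro a
    have h1 := toM_poly (K := K) (M := N) (Polynomial.C a)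
    rw [Polynomial.map_C] at h1
    rw [RatFunc.algebraMap_C, RatFunc.algebraMap_C] at h1
    exact h1
  have hkC : ∀ c : k, algebraMap k (RatFunc K) c = RatFunc.C (algebraMap k K c) := by
    intro c
    rw [← RatFunc.algebraMap_C, IsScalarTower.algebraMap_apply k K[X] (RatFunc K)]
    rfl
  have hkN : ∀ c : k, algebraMap k (RatFunc N) c = RatFunc.C (algebraMap k N c) := by
    intro c
    rw [← RatFunc.algebraMap_C, IsScalarTower.algebraMap_apply k N[X] (RatFunc N)]
    rfl
  have hKK : ∀ c : K, algebraMap K (RatFunc K) c = RatFunc.C c := by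
    intro c
    rw [← RatFunc.algebraMap_C, IsScalarTower.algebraMap_apply K K[X] (RatFunc K)]
    rfl
  have hKN : ∀ c : K, algebraMap K (RatFunc N) c = RatFunc.C (algebraMap K N c) := by
    intro c
    rw [← RatFunc.algebraMap_C, IsScalarTower.algebraMap_apply K N[X] (RatFunc N)]
    rfl
  have t1 : IsScalarTower k (RatFunc K) (RatFunc N) := IsScalarTower.of_algebraMap_eq fun c => by
    change _ = toM K N _
    rw [hkN, hkC, hC, IsScalarTower.algebraMap_apply k K N]
  have t2 : IsScalarTower K (RatFunc K) (RatFunc N) := IsScalarTower.of_algebraMap_eq fun c => by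
    change _ = toM K N _
    rw [hKN, hKK, hC]
  -- generation
  obtain ⟨ν, hν⟩ := Field.exists_primitive_element K N
  have hgen : IntermediateField.adjoin (RatFunc K) {(RatFunc.C ν : RatFunc N)} = ⊤ := by
    rw [eq_top_iff]
    set W := IntermediateField.adjoin (RatFunc K) {(RatFunc.C ν : RatFunc N)} with hW
    have hWC : ∀ b : N, (RatFunc.C b : RatFunc N) ∈ W := by
      intro b
      have hb : b ∈ IntermediateField.adjoin K {ν} := by
        rw [hν]
        trivial
      induction hb using IntermediateField.adjoin_induction with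
      | mem x hx =>
        rw [Set.mem_singleton_iff.1 hx]
        exact IntermediateField.subset_adjoin _ _ rfl
      | algebraMap x =>
        rw [← hC]
        exact W.algebraMap_mem (RatFunc.C x)
      | add x y _ _ hx hy =>
        rw [map_add]
        exact add_mem hx hy
      | mul x y _ _ hx hy =>
        rw [map_mul]
        exact mul_mem hx hy
      | inv x _ hx =>
        rw [map_inv₀]
        exact inv_mem hx
    have hWX : (RatFunc.X : RatFunc N) ∈ W := by
      have h1 := toM_poly (K := K) (M := N) (Polynomial.X)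
      rw [Polynomial.map_X] at h1
      rw [RatFunc.algebraMap_X, RatFunc.algebraMap_X] at h1
      rw [← h1]
      exact W.algebraMap_mem RatFunc.X
    have hWp : ∀ p : N[X], algebraMap N[X] (RatFunc N) p ∈ W := by
      intro p
      induction p using Polynomial.induction_on' with
      | add p q hp hq =>
        rw [map_add]
        exact add_mem hp hq
      | monomial n a =>
        rw [← Polynomial.C_mul_X_pow_eq_monomial, map_mul, map_pow, RatFunc.algebraMap_C,
          RatFunc.algebraMap_X]
        exact mul_mem (hWC a) (pow_mem hWX n)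
    intro z _
    rw [← RatFunc.num_div_denom z]
    exact div_mem (hWp _) (hWp _)
  have hνint : IsIntegral (RatFunc K) (RatFunc.C ν : RatFunc N) := by
    have h1 : IsIntegral K ν := Algebra.IsIntegral.isIntegral ν
    have h2 : IsIntegral K (RatFunc.C ν : RatFunc N) := by
      obtain ⟨p, hp, hp0⟩ := h1
      refine ⟨p, hp, ?_⟩
      have h3 : algebraMap K (RatFunc N) = (RatFunc.C : N →+* RatFunc N).comp (algebraMap K N) := by
        ext a
        exact hKN a
      rw [h3, ← Polynomial.hom_eval₂, hp0, map_zero]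
    exact h2.tower_top
  have hfd : FiniteDimensional (RatFunc K) (RatFunc N) := by
    have h1 := IntermediateField.adjoin.finiteDimensional hνint
    rw [hgen] at h1
    exact LinearEquiv.finiteDimensional
      (IntermediateField.topEquiv (F := RatFunc K) (E := RatFunc N)).toLinearEquiv
  have htop : IntermediateField.adjoin (RatFunc K) {z : RatFunc N | IsAlgebraic K z} = ⊤ := by
    rw [eq_top_iff, ← hgen]
    apply IntermediateField.adjoin.mono
    intro z hz
    rw [Set.mem_singleton_iff.1 hz]
    have h1 : IsAlgebraic K ν := Algebra.IsAlgebraic.isAlgebraic ν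
    obtain ⟨p, hp, hp0⟩ := h1
    refine ⟨p, hp, ?_⟩
    have h3 : algebraMap K (RatFunc N) = (RatFunc.C : N →+* RatFunc N).comp (algebraMap K N) := by
      ext a
      exact hKN a
    rw [aeval_def, h3, ← Polynomial.hom_eval₂, ← aeval_def, hp0, map_zero]
  -- a place of `N(t)` over `E`
  obtain ⟨S, T, -, hT, hsum⟩ := exists_places_over (K' := RatFunc N) E
  have hne : S.Nonempty := by
    rw [Finset.nonempty_iff_ne_empty]
    rintro rfl
    rw [Finset.sum_empty] at hsum
    exact (Module.finrank_pos (R := RatFunc K) (M := RatFunc N)).ne' hsum.symm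
  obtain ⟨w, hwS⟩ := hne
  obtain ⟨e, hw, -⟩ := hT w hwS
  have he : e = 1 := by
    have h1 : ∀ a : K, a ≠ 0 → E.ord (algebraMap K (RatFunc K) a) = 0 := fun a ha => by
      rw [hKK]
      exact hE a ha
    have h2 : ∀ a : K, a ≠ 0 → w.ord (algebraMap K (RatFunc N) a) = 0 := fun a ha => by
      rw [IsScalarTower.algebraMap_apply K (RatFunc K) (RatFunc N), hw.2, h1 a ha, mul_zero]
    exact Pool.Agent.Y500.HC.main (k := K) (K := RatFunc K) (M := RatFunc N) htop
      (Pool.Agent.Y500.HC.chg E K h1) (Pool.Agent.Y500.HC.chg w K h2) e hw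
  subst he
  have hws : ∀ a : K, w.ord (s' (algebraMap K N a)) = m * P.ord a := by
    intro a
    rw [hs', ← hEP a]
    have h1 := hw.2 (s a)
    rw [Nat.cast_one, one_mul] at h1
    exact h1
  obtain ⟨t, ht0, ht⟩ := P.surj
  have hm' : (0 : ℤ) < m := by exact_mod_cast hm
  obtain ⟨g, Q0, hg, hQ0v⟩ := exists_normalised (k := k) (fun f : N => w.ord (s' f))
    (by rw [map_zero, w.ord_zero])
    (fun f g hf hg => by rw [map_mul, w.ord_mul (by simpa using hf) (by simpa using hg)])
    (fun f g hf hg hfg => by
      rw [map_add]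
      exact w.ord_add (by simpa using hf) (by simpa using hg)
        (by rw [← map_add]; exact (map_ne_zero_iff _ s'.injective).2 hfg))
    (fun c hc => by
      rw [IsScalarTower.algebraMap_apply k K N, hws, P.ord_const hc, mul_zero])
    (algebraMap K N t) (by simpa using ht0) (by
      rw [hws, ht, mul_one]
      exact hm'.ne')
  have hQ0m : ∀ f : K, (m : ℤ) * P.ord f = g * Q0.ord (algebraMap K N f) := fun f =>
    (hws f).symm.trans (hQ0v (algebraMap K N f))
  have hmt : (m : ℤ) = g * Q0.ord (algebraMap K N t) := by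
    rw [← hQ0m t, ht, mul_one]
  have hn0 : 0 < Q0.ord (algebraMap K N t) := by
    by_contra hcon
    push Not at hcon
    have : g * Q0.ord (algebraMap K N t) ≤ 0 := mul_nonpos_of_nonneg_of_nonpos hg.le hcon
    omega
  obtain ⟨n0, hn0'⟩ := Int.eq_ofNat_of_zero_le hn0.le
  have hQ0 : Over Q0 P n0 := by
    refine ⟨by omega, fun f => ?_⟩
    have h1 := hQ0m f
    rw [hmt, hn0', mul_assoc] at h1
    exact (mul_left_cancel₀ hg.ne' h1).symm
  obtain ⟨γ, hγ⟩ := Pool.Agent.Y536.PS.conj K N Q0.O Q.O (by
    ext z
    rw [ValuationSubring.mem_comap, ValuationSubring.mem_comap]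
    exact hQ0.reg.trans hQ.reg.symm)
  have hQeq : Q = Q0.comp (γ.restrictScalars k) := by
    refine FF.Place.eq_of_le _ _ fun f hf h1 => ?_
    have h2 : f ∈ Q.O := Or.inr h1
    have h3 := (hγ f).1 h2
    have h4 : γ f ≠ 0 := by simpa using hf
    exact (Q0.reg_iff h4).1 h3
  have h1 := hQ.2 t
  rw [hQeq, Place.comp_ord] at h1
  have h2 : (γ.restrictScalars k) (algebraMap K N t) = algebraMap K N t := γ.commutes t
  rw [h2, hQ0.2, ht, mul_one, mul_one] at h1
  have h3 : n0 = n := by exact_mod_cast h1
  have h4 : (n : ℤ) ∣ m := ⟨g, by rw [hmt, hn0', h3, mul_comm]⟩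
  exact_mod_cast h4

/-- The ramification indices, over a place met by a family with multiplicity `m`, of a finite
extension to which the family lifts divide `m`. -/
theorem ram_dvd [CharZero k] {M : Type} [Field M] [Algebra K M] [Algebra k M]
    [IsScalarTower k K M] [FiniteDimensional K M] {s : K →ₐ[k] RatFunc K} (hs : IsFamily s)
    (hl : Lifts s M) (P : FF.Place k K) (m : ℕ) (hP : Meets s P m) (Q : FF.Place k M) (n : ℕ)
    (hQ : Over Q P n) : n ∣ m := by
  have hcK : CharZero K := charZero_of_injective_algebraMap (algebraMap k K).injective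
  obtain ⟨s', hs'⟩ := hl
  let pb := Field.powerBasisOfFiniteOfSeparable K M
  have hint : IsIntegral K pb.gen := Algebra.IsIntegral.isIntegral pb.gen
  obtain ⟨P0, hP0⟩ : ∃ P0 : K[X], P0 = minpoly K pb.gen := ⟨_, rfl⟩
  have hirr : Irreducible P0 := by
    rw [hP0]
    exact minpoly.irreducible hint
  have hm : P0.Monic := by
    rw [hP0]
    exact minpoly.monic hint
  have h3' : P0.eval₂ (algebraMap K M) pb.gen = 0 := by
    rw [← aeval_def, hP0]
    exact minpoly.aeval K pb.gen
  let N := P0.SplittingField
  have hnorm : Normal K N := Normal.of_isSplittingField P0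
  obtain ⟨y, hy⟩ : ∃ y : N, aeval y P0 = 0 := by
    obtain ⟨y, hy⟩ := Splits.exists_eval_eq_zero (IsSplittingField.splits N P0)
      (by
        rw [degree_map]
        exact (degree_pos_of_irreducible hirr).ne')
    refine ⟨y, ?_⟩
    rw [aeval_def, ← eval_map]
    exact hy
  let f : M →ₐ[K] N := pb.lift y (by rw [← hP0]; exact hy)
  let iMN : Algebra M N := f.toRingHom.toAlgebra
  have tKMN : IsScalarTower K M N := IsScalarTower.of_algebraMap_eq fun c => (f.commutes c).symm
  have tkMN : IsScalarTower k M N := IsScalarTower.of_algebraMap_eq fun c => by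
    rw [IsScalarTower.algebraMap_apply k K N, IsScalarTower.algebraMap_apply k K M,
      ← IsScalarTower.algebraMap_apply K M N]
  have hfdM : FiniteDimensional M N := FiniteDimensional.right K M N
  have hr : P0.eval₂ ((toM K N).comp (s : K →+* RatFunc K)) (toM M N (s' pb.gen)) = 0 := by
    have h1 : (toM K N).comp (s : K →+* RatFunc K) = ((toM M N).comp s').comp (algebraMap K M) := by
      ext a
      change toM K N (s a) = toM M N (s' (algebraMap K M a))
      rw [hs', toM_toM]
    have h2 : toM M N (s' pb.gen) = ((toM M N).comp s') pb.gen := rfl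
    rw [h1, h2, ← Polynomial.hom_eval₂, h3', map_zero]
  obtain ⟨sN, hsN⟩ := hom_of_root (N := N) hs P0 hirr hm _ hr
  obtain ⟨S, T, -, hT, hsum⟩ := exists_places_over (K' := N) Q
  have hne : S.Nonempty := by
    rw [Finset.nonempty_iff_ne_empty]
    rintro rfl
    rw [Finset.sum_empty] at hsum
    exact (Module.finrank_pos (R := M) (M := N)).ne' hsum.symm
  obtain ⟨w, hwS⟩ := hne
  obtain ⟨e, hw, -⟩ := hT w hwS
  have hwP : Over w P (e * n) := by
    refine ⟨Nat.mul_pos hw.1 hQ.1, fun g => ?_⟩
    rw [IsScalarTower.algebraMap_apply K M N, hw.2, hQ.2]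
    push_cast
    ring
  exact (Dvd.intro_left e rfl).trans (ram_dvd_of_hom sN hsN P m hP w (e * n) hwP)

end

end Pool.Agent.R70.HC
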