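import Mathlib
import Pool.Agent.R70.HC.Hpf
import Pool.Agent.R70.HC.Mult
import Pool.Agent.R70.HC.Defs
import Pool.Agent.Y742.HC.Stm
import Pool.Agent.Y780.HC.Pts
import Pool.Agent.W253.HP.Sch
import Pool.Agent.W405.HP.Hit
import Pool.Agent.W583.HP.FG
import Pool.Agent.W376.HP.NRM

/-! The Hilbert property from families of rational curves through the general point (helper70). -/

set_option autoImplicit false

open Polynomial AlgebraicGeometry CategoryTheory W560.HP
open Pool.Agent.Y742.HC (DensePoints)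

namespace Pool.Agent.R70.HC

theorem hilbNR (k : Type) [Field k] [CharZero k]
    (hk : ∃ S : Finset k, IntermediateField.adjoin ℚ (S : Set k) = ⊤) : HilbNR k := by
  obtain ⟨S, hS⟩ := hk
  exact Pool.Agent.W405.HP.hit k (Pool.Agent.W583.HP.fg k S hS)

theorem av_of_dense (k : Type) [Field k] (K : Type) [Field K] [Algebra k K] (X : Scheme.{0})
    (p : X ⟶ Spec (CommRingCat.of k)) [IsIntegral X] [LocallyOfFiniteType p]
    (e : X.functionField ≃+* K) (he : ∀ a : k, e (toFF k X p a) = algebraMap k K a)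
    (hd : DensePoints k X p) : Av k ([] : List K[X]) := by
  refine av_nil fun N x => ?_
  obtain ⟨c, hc, -⟩ := Pool.Agent.Y780.HC.sPts k X p K ⟨e, he⟩ hd N x 1 (by
    rw [map_one]
    exact one_ne_zero)
  exact ⟨c, hc⟩

theorem finDim_adjoinRoot {K : Type} [Field K] (P : K[X]) [Fact (Irreducible P)] :
    FiniteDimensional K (AdjoinRoot P) :=
  (AdjoinRoot.powerBasis (Fact.out : Irreducible P).ne_zero).finite

theorem not_surj {K : Type} [Field K] (P : K[X]) [Fact (Irreducible P)]
    (hP : ∀ x : K, P.eval x ≠ 0) : ¬ Function.Surjective (algebraMap K (AdjoinRoot P)) := by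
  intro h
  obtain ⟨x, hx⟩ := h (AdjoinRoot.root P)
  refine hP x ?_
  apply (algebraMap K (AdjoinRoot P)).injective
  have h1 : algebraMap K (AdjoinRoot P) (P.eval x) = P.eval₂ (algebraMap K (AdjoinRoot P))
      (algebraMap K (AdjoinRoot P) x) := (Polynomial.eval₂_at_apply _ _).symm
  rw [h1, hx, map_zero, AdjoinRoot.algebraMap_eq, AdjoinRoot.eval₂_root]

/-- The theorem for schemes. -/
theorem scheme_main (k : Type) [Field k] [CharZero k]
    (hk : ∃ S : Finset k, IntermediateField.adjoin ℚ (S : Set k) = ⊤) (K : Type) [Field K]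
    [Algebra k K] (X : Scheme.{0}) (p : X ⟶ Spec (CommRingCat.of k)) [IsIntegral X]
    [LocallyOfFiniteType p] (e : X.functionField ≃+* K)
    (he : ∀ a : k, e (toFF k X p a) = algebraMap k K a)
    (hd : DensePoints k X p)
    (H : ∀ (M : Type) [Field M] [Algebra k M] [Algebra K M] [IsScalarTower k K M]
      [FiniteDimensional K M], (∀ a : M, IsAlgebraic k a → a ∈ Set.range (algebraMap k M)) →
      (∀ s : K →ₐ[k] RatFunc K, IsFamily s → Lifts s M) →
      Function.Surjective (algebraMap K M)) :
    HilbertProperty k X p ∧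
      ((∀ x : X, IsIntegrallyClosed (X.presheaf.stalk x)) → HilbertPropertyIso k X p) := by
  have hcK : CharZero K := charZero_of_injective_algebraMap (algebraMap k K).injective
  have h1 : HPF k K := by
    refine hpf (hilbNR k hk) (av_of_dense k K X p e he hd) fun P hPi hPm hP hc => ?_
    by_contra hcon
    push Not at hcon
    have := finDim_adjoinRoot P
    exact not_surj P hP (H (AdjoinRoot P) hc fun s hs => hcon s hs)
  have h2 : HilbertProperty k X p := Pool.Agent.W253.HP.sch k X p K e he h1
  refine ⟨h2, fun hn q Y π hY hf hs hi => ?_⟩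
  refine h2 q Y π hY hf hs fun i hsur => ?_
  have := hY i
  exact hi i (Pool.Agent.W376.HP.nrm X (Y i) (π i) hn (hf i) (hs i) hsur)

/-- The ramification of a cover to which all families lift. -/
theorem ramDvd_of_lifts {k K : Type} [Field k] [CharZero k] [Field K] [Algebra k K]
    {M : Type} [Field M] [Algebra k M] [Algebra K M] [IsScalarTower k K M]
    [FiniteDimensional K M] {s : K →ₐ[k] RatFunc K} (hs : IsFamily s) (hl : Lifts s M)
    (P : FF.Place k K) (m : ℕ) (hP : Meets s P m) : RamificationDvd M P m :=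
  fun Q n hn hQ => ram_dvd hs hl P m hP Q n ⟨hn, hQ⟩

theorem unramifiedAt_of_dvd {k K : Type} [Field k] [Field K] [Algebra k K]
    {M : Type} [Field M] [Algebra k M] [Algebra K M] (P : FF.Place k K)
    (hP : ∀ n, 2 ≤ n → ∃ m, RamificationDvd M P m ∧ ¬ n ∣ m) : UnramifiedAt M P := by
  intro Q n hn hQ
  by_contra hne
  obtain ⟨m, hm, hnm⟩ := hP n (by omega)
  exact hnm (hm Q n hn hQ)

theorem scheme_ram (k : Type) [Field k] [CharZero k]
    (hk : ∃ S : Finset k, IntermediateField.adjoin ℚ (S : Set k) = ⊤) (K : Type) [Field K]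
    [Algebra k K] (X : Scheme.{0}) (p : X ⟶ Spec (CommRingCat.of k)) [IsIntegral X]
    [LocallyOfFiniteType p] (e : X.functionField ≃+* K)
    (he : ∀ a : k, e (toFF k X p a) = algebraMap k K a)
    (hd : DensePoints k X p)
    (H : ∀ (M : Type) [Field M] [Algebra k M] [Algebra K M] [IsScalarTower k K M]
      [FiniteDimensional K M], (∀ a : M, IsAlgebraic k a → a ∈ Set.range (algebraMap k M)) →
      (∀ (s : K →ₐ[k] RatFunc K) (P : FF.Place k K) (m : ℕ), IsFamily s → Meets s P m →
        RamificationDvd M P m) →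
      Function.Surjective (algebraMap K M)) :
    HilbertProperty k X p ∧
      ((∀ x : X, IsIntegrallyClosed (X.presheaf.stalk x)) → HilbertPropertyIso k X p) :=
  scheme_main k hk K X p e he hd fun M _ _ _ _ _ hc hl =>
    H M hc fun s P m hs hP => ramDvd_of_lifts hs (hl s hs) P m hP

theorem scheme_unram (k : Type) [Field k] [CharZero k]
    (hk : ∃ S : Finset k, IntermediateField.adjoin ℚ (S : Set k) = ⊤) (K : Type) [Field K]
    [Algebra k K] (X : Scheme.{0}) (p : X ⟶ Spec (CommRingCat.of k)) [IsIntegral X]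
    [LocallyOfFiniteType p] (e : X.functionField ≃+* K)
    (he : ∀ a : k, e (toFF k X p a) = algebraMap k K a)
    (hd : DensePoints k X p)
    (hP : ∀ P : FF.Place k K, PlaceOn k X e P → ∀ n, 2 ≤ n →
      ∃ (s : K →ₐ[k] RatFunc K) (m : ℕ), IsFamily s ∧ Meets s P m ∧ ¬ n ∣ m)
    (H : ∀ (M : Type) [Field M] [Algebra k M] [Algebra K M] [IsScalarTower k K M]
      [FiniteDimensional K M], (∀ a : M, IsAlgebraic k a → a ∈ Set.range (algebraMap k M)) →
      (∀ P : FF.Place k K, PlaceOn k X e P → UnramifiedAt M P) →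
      Function.Surjective (algebraMap K M)) :
    HilbertProperty k X p ∧
      ((∀ x : X, IsIntegrallyClosed (X.presheaf.stalk x)) → HilbertPropertyIso k X p) := by
  refine scheme_ram k hk K X p e he hd fun M _ _ _ _ _ hc hl =>
    H M hc fun P hPX => unramifiedAt_of_dvd P fun n hn => ?_
  obtain ⟨s, m, hs, hm, hnm⟩ := hP P hPX n hn
  exact ⟨m, hl s P m hs hm, hnm⟩

end Pool.Agent.R70.HC
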